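import Pool.Agent.Lib.TG.Defs

/-!
# TANK G, section B by dimension counts (TG_B_h15.md): definitions and statements of the rows

`L ⊆ K` finite dimensional with `1 ∈ L`, `W ⊆ L ^ m` arbitrary, `H = W * L`, `M = m + 1`.
-/

set_option autoImplicit false

namespace Pool.Agent.TG15

open Pool.Agent.TG (Ov ZDim IsMin ch)
open Module

universe u

variable {k K : Type u} [Field k] [Field K] [Algebra k K]

/-- `v(x) > v(F)` (or `x = 0`). -/
def Gt (V : ValuationSubring K) (x : K) (F : Submodule k K) : Prop :=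
  x = 0 ∨ ∃ y ∈ F, V.valuation x < V.valuation y

/-- The valuations of the boundary `T⁺(W)`: `v(τ) + v(W) > N v(L)`. -/
def Tp (L : Submodule k K) (N : ℕ) (τ : K) (W : Submodule k K) (V : ValuationSubring K) : Prop :=
  Ov k V ∧ ∀ w ∈ W, Gt V (τ * w) (L ^ N)

/-- `{f ∈ F ^ i : v(f) > i v(F) for all V with P V}`. -/
def vanish (F : Submodule k K) (i : ℕ) (P : ValuationSubring K → Prop) : Submodule k K where
  carrier := {f | f ∈ F ^ i ∧ ∀ V : ValuationSubring K, P V → Gt V f (F ^ i)}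
  add_mem' := by
    rintro a b ⟨ha, ha'⟩ ⟨hb, hb'⟩
    refine ⟨add_mem ha hb, fun V hV => ?_⟩
    rcases ha' V hV with rfl | ⟨x, hx, hxa⟩
    · rw [zero_add]
      exact hb' V hV
    rcases hb' V hV with rfl | ⟨y, hy, hyb⟩
    · rw [add_zero]
      exact Or.inr ⟨x, hx, hxa⟩
    refine Or.inr ?_
    rcases le_total (V.valuation x) (V.valuation y) with h | h
    · exact ⟨y, hy, (V.valuation.map_add a b).trans_lt (max_lt (hxa.trans_le h) hyb)⟩
    · exact ⟨x, hx, (V.valuation.map_add a b).trans_lt (max_lt hxa (hyb.trans_le h))⟩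
  zero_mem' := ⟨zero_mem _, fun V _ => Or.inl rfl⟩
  smul_mem' := by
    rintro c a ⟨ha, ha'⟩
    refine ⟨Submodule.smul_mem _ c ha, fun V hV => ?_⟩
    rcases eq_or_ne c 0 with rfl | hc
    · exact Or.inl (zero_smul _ _)
    rcases ha' V hV with rfl | ⟨x, hx, hxa⟩
    · exact Or.inl (smul_zero _)
    refine Or.inr ⟨c • x, Submodule.smul_mem _ c hx, ?_⟩
    rw [Algebra.smul_def, Algebra.smul_def, map_mul, map_mul]
    have hc' : V.valuation (algebraMap k K c) ≠ 0 := by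
      rw [Valuation.ne_zero_iff]
      exact (map_ne_zero_iff _ (algebraMap k K).injective).2 hc
    exact mul_lt_mul_of_pos_left hxa (zero_lt_iff.2 hc')

/-- `t_i(W)`. -/
def ti (L : Submodule k K) (N : ℕ) (τ : K) (W : Submodule k K) (i : ℕ) : Submodule k K :=
  vanish (W * L) i (Tp L N τ W)

/-- `th_i(W) = dim H ^ i / t_i(W)`. -/
noncomputable def thi (L : Submodule k K) (N : ℕ) (τ : K) (W : Submodule k K) (i : ℕ) : ℕ :=
  finrank k ((W * L) ^ i : Submodule k K) - finrank k (ti L N τ W i)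

/-- `q • A`. -/
def smulK (q : K) (A : Submodule k K) : Submodule k K := A.map (LinearMap.mulLeft k q)

/-- `b_i(g) = H ^ i ∩ q(g) A`. -/
def bi (H A : Submodule k K) (i : ℕ) (q : K) : Submodule k K := H ^ i ⊓ smulK q A

/-- `r_i(H) = max over g ∈ H ^ (n + 1)` with `q(g) ≠ 0` of `dim H ^ i / (H ^ i ∩ q(g) A)`. -/
noncomputable def ri {n : ℕ} (q : (Fin (n + 1) → K) → K) (H A : Submodule k K) (i : ℕ) : ℕ :=
  sSup {d | ∃ g : Fin (n + 1) → K, (∀ j, g j ∈ H) ∧ q g ≠ 0 ∧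
    d = finrank k (H ^ i : Submodule k K) - finrank k (bi H A i (q g))}

/-- The potential `F_t(W) = 2 dim H ^ t + ∑_{i < t} (r_i + th_i)`; the spaces `A_i = L ^ (M i)`. -/
noncomputable def Ft {n : ℕ} (q : (Fin (n + 1) → K) → K) (L : Submodule k K) (M N : ℕ) (τ : K)
    (W : Submodule k K) (t : ℕ) : ℕ :=
  2 * finrank k ((W * L) ^ t : Submodule k K) +
    ∑ i ∈ Finset.range t, (ri q (W * L) (L ^ (M * i)) i + thi L N τ W i)

/-! ### The local rings -/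

/-- `H_x = {h ∈ H : v(h) > v(H)}`. -/
def hx (V : ValuationSubring K) (H : Submodule k K) : Submodule k K where
  carrier := {f | f ∈ H ∧ Gt V f H}
  add_mem' := by
    rintro a b ⟨ha, ha'⟩ ⟨hb, hb'⟩
    refine ⟨add_mem ha hb, ?_⟩
    rcases ha' with rfl | ⟨x, hx, hxa⟩
    · rw [zero_add]
      exact hb'
    rcases hb' with rfl | ⟨y, hy, hyb⟩
    · rw [add_zero]
      exact Or.inr ⟨x, hx, hxa⟩
    refine Or.inr ?_
    rcases le_total (V.valuation x) (V.valuation y) with h | h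
    · exact ⟨y, hy, (V.valuation.map_add a b).trans_lt (max_lt (hxa.trans_le h) hyb)⟩
    · exact ⟨x, hx, (V.valuation.map_add a b).trans_lt (max_lt hxa (hyb.trans_le h))⟩
  zero_mem' := ⟨zero_mem _, Or.inl rfl⟩
  smul_mem' := by
    rintro c a ⟨ha, ha'⟩
    refine ⟨Submodule.smul_mem _ c ha, ?_⟩
    rcases eq_or_ne c 0 with rfl | hc
    · exact Or.inl (zero_smul _ _)
    rcases ha' with rfl | ⟨x, hx, hxa⟩
    · exact Or.inl (smul_zero _)
    refine Or.inr ⟨c • x, Submodule.smul_mem _ c hx, ?_⟩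
    rw [Algebra.smul_def, Algebra.smul_def, map_mul, map_mul]
    have hc' : V.valuation (algebraMap k K c) ≠ 0 := by
      rw [Valuation.ne_zero_iff]
      exact (map_ne_zero_iff _ (algebraMap k K).injective).2 hc
    exact mul_lt_mul_of_pos_left hxa (zero_lt_iff.2 hc')

/-- The maximal ideal of the point in the chart `ch H f₀`. -/
def mx (H : Submodule k K) (f₀ : K) (X : Submodule k K) : Ideal (ch H f₀) :=
  Ideal.span {a | ∃ h ∈ X, (a : K) = h / f₀}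

/-- The ideal generated by `E / f₀ ^ i` in the chart `ch H f₀`. -/
def ix (H : Submodule k K) (f₀ : K) (i : ℕ) (E : Submodule k K) : Ideal (ch H f₀) :=
  Ideal.span {a | ∃ f ∈ E, (a : K) = f / f₀ ^ i}

/-! ### Statements of the rows -/

/-- LEMMA D. -/
def LemD (k K : Type u) [Field k] [Field K] [Algebra k K] : Prop :=
  ∀ (V : ValuationSubring K), ZDim k V → ∀ (H : Submodule k K), H.FG → ∀ f₀ : K, IsMin V H f₀ →
    ∀ H' : Submodule k K, H' ≤ hx V H → ∀ (i : ℕ) (E : Submodule k K), E ≤ H ^ i →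
      finrank k (E ⊔ H' ^ i : Submodule k K) +
        finrank k (ch H f₀ ⧸ (ix H f₀ i E ⊔ mx H f₀ (hx V H) ^ i)) ≤
      finrank k (H ^ i : Submodule k K)

/-- LEMMA N (new divisors). -/
def LemN (k K : Type u) [Field k] [Field K] [Algebra k K] : Prop :=
  Infinite k → ∀ (H H' : Submodule k K), H.FG → H ≠ ⊥ → H' ≤ H → ∀ t : ℕ,
    finrank k (H' ^ t : Submodule k K) + ∑ i ∈ Finset.range t,
      (finrank k (H' ^ i : Submodule k K) -
        finrank k (vanish H' i fun V => Ov k V ∧ ∀ h ∈ H', Gt V h H)) ≤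
    finrank k (H ^ t : Submodule k K)

/-- LEMMA S, one variable. -/
def LemS1 (k K : Type u) [Field k] [Field K] [Algebra k K] : Prop :=
  ∀ (E A : Submodule k K), E.FG → A.FG → ∀ q₀ q₁ : K, q₁ ≠ 0 →
    {s : k | q₀ + algebraMap k K s * q₁ = 0 ∨
      finrank k (E ⊓ smulK q₁ A : Submodule k K) <
        finrank k (E ⊓ smulK (q₀ + algebraMap k K s * q₁) A : Submodule k K)}.Finite

/-- LEMMA S, openness. -/
def LemS2 (k K : Type u) [Field k] [Field K] [Algebra k K] : Prop :=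
  ∀ (E A : Submodule k K), E.FG → A.FG → ∀ (ι J : Type) [Fintype J] (φ : J → MvPolynomial ι k)
    (κ : J → K) (c₀ : ι → k), (∑ j, algebraMap k K (MvPolynomial.eval c₀ (φ j)) * κ j) ≠ 0 →
    ∃ Φ : MvPolynomial ι k, MvPolynomial.eval c₀ Φ ≠ 0 ∧ ∀ c : ι → k, MvPolynomial.eval c Φ ≠ 0 →
      (∑ j, algebraMap k K (MvPolynomial.eval c (φ j)) * κ j) ≠ 0 ∧
      finrank k (E ⊓ smulK (∑ j, algebraMap k K (MvPolynomial.eval c (φ j)) * κ j) A :
          Submodule k K) ≤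
        finrank k (E ⊓ smulK (∑ j, algebraMap k K (MvPolynomial.eval c₀ (φ j)) * κ j) A :
          Submodule k K)

/-- The tuple `g₀ = f₀ + ∑ c₀ⱼ eⱼ`, `g_l = ∑ c_lj eⱼ`. -/
def tup {n h : ℕ} (f₀ : K) (e : Fin h → K) (c : Fin (n + 1) × Fin h → k) : Fin (n + 1) → K :=
  fun l => (if l = 0 then f₀ else 0) + ∑ j, c (l, j) • e j

/-- `b_x(g)` (`A = k[L]`): generated by `f / f₀ ^ i`, `f ∈ H ^ i ∩ q(g) L ^ (M i)`. -/
def bx (L H : Submodule k K) (M : ℕ) (f₀ q : K) : Ideal (ch H f₀) :=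
  ⨆ i, ix H f₀ i (bi H (L ^ (M * i)) i q)

/-- `t_x`, the ideal of the boundary. -/
def tx (L W : Submodule k K) (N : ℕ) (τ f₀ : K) : Ideal (ch (W * L) f₀) :=
  ⨆ i, ix (W * L) f₀ i (ti L N τ W i)

/-- The local expression. -/
noncomputable def loc (L W : Submodule k K) (M N : ℕ) (τ f₀ q : K) (V : ValuationSubring K)
    (t : ℕ) : ℕ :=
  finrank k (ch (W * L) f₀ ⧸ mx (W * L) f₀ (hx V (W * L)) ^ t) +
    ∑ i ∈ Finset.range t,
      (finrank k (ch (W * L) f₀ ⧸ (bx L (W * L) M f₀ q ⊔ mx (W * L) f₀ (hx V (W * L)) ^ i)) +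
       finrank k (ch (W * L) f₀ ⧸ (tx L W N τ f₀ ⊔ mx (W * L) f₀ (hx V (W * L)) ^ i)))

/-- THE STEP. -/
def StepStmt (k K : Type u) [Field k] [Field K] [Algebra k K] (n : ℕ) : Prop :=
  Infinite k → ∀ (q : K [⋀^Fin (n + 1)]→ₗ[k] K) (L : Submodule k K), L.FG → 1 ∈ L →
    (∀ w : K, w ≠ 0 → ∃ g : Fin (n + 1) → K, (∀ j, g j ∈ (k ∙ w) * L) ∧ q g ≠ 0) →
    ∀ (M N : ℕ) (τ : K), τ ≠ 0 → ∀ W : Submodule k K, W.FG → W ≠ ⊥ →
    ∀ V : ValuationSubring K, ZDim k V → ∀ f₀ : K, IsMin V (W * L) f₀ →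
    ∀ (h : ℕ) (e : Fin h → K), Submodule.span k (Set.range e) = hx V (W * L) → ∀ t : ℕ,
    ∃ Φ : MvPolynomial (Fin (n + 1) × Fin h) k, Φ ≠ 0 ∧ ∀ c, MvPolynomial.eval c Φ ≠ 0 →
      q (tup f₀ e c) ≠ 0 ∧
      Ft q L M N τ (hx V W) t + loc L W M N τ f₀ (q (tup f₀ e c)) V t ≤ Ft q L M N τ W t

/-- THE START. -/
def StartStmt (k K : Type u) [Field k] [Field K] [Algebra k K] (n : ℕ) : Prop :=
  ∀ (q : K [⋀^Fin (n + 1)]→ₗ[k] K) (L : Submodule k K), L.FG → 1 ∈ L → ∀ c' : ℕ,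
    (∀ (M : ℕ) (g : Fin (n + 1) → K), (∀ j, g j ∈ L ^ M) → q g ∈ L ^ ((n + 1) * M + c')) →
    ∀ (c : ℕ) (τ : K), τ ≠ 0 → τ ∈ L ^ c → ∀ m : ℕ, c ≤ m → c' ≤ m → ∀ t : ℕ,
      Ft q L (m + 1) (c + m) τ (L ^ m) t ≤ (n + 5) * finrank k (L ^ ((m + 1) * t) : Submodule k K)

/-- **G1**: one `W` good at every point. -/
def G1Stmt (k K : Type u) [Field k] [Field K] [Algebra k K] (n : ℕ) : Prop :=
  Infinite k → Algebra.trdeg k K = n → (⊤ : IntermediateField k K).FG →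
  ∀ (q : K [⋀^Fin (n + 1)]→ₗ[k] K) (L : Submodule k K), L.FG → 1 ∈ L → TG.Bir L →
    (∀ w : K, w ≠ 0 → ∃ g : Fin (n + 1) → K, (∀ j, g j ∈ (k ∙ w) * L) ∧ q g ≠ 0) → ∀ c' : ℕ,
    (∀ (M : ℕ) (g : Fin (n + 1) → K), (∀ j, g j ∈ L ^ M) → q g ∈ L ^ ((n + 1) * M + c')) →
    ∀ (c_ : ℕ) (τ : K), τ ≠ 0 → τ ∈ L ^ c_ → ∀ m₀ : ℕ, ∃ m ≥ m₀, ∃ W ≤ L ^ m, W ≠ ⊥ ∧
    ∀ V : ValuationSubring K, ZDim k V → ∀ f₀ : K, IsMin V (W * L) f₀ →
    ∀ (h : ℕ) (e : Fin h → K), Submodule.span k (Set.range e) = hx V (W * L) →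
    ∃ᶠ t in Filter.atTop, ∃ Φ : MvPolynomial (Fin (n + 1) × Fin h) k, Φ ≠ 0 ∧
      ∀ c, MvPolynomial.eval c Φ ≠ 0 → q (tup f₀ e c) ≠ 0 ∧
        loc L W (m + 1) (c_ + m) τ f₀ (q (tup f₀ e c)) V t < (n + 6) * t ^ n

end Pool.Agent.TG15
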