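import Pool.Agent.Lib.TG15.Defs
import Pool.Agent.Lib.ALB.Growth

/-!
# TANK G, section B: growth of the powers of the base space
-/

set_option autoImplicit false

namespace Pool.Agent.TG15

open Module Filter

universe u

variable {k K : Type u} [Field k] [Field K] [Algebra k K] {n : ℕ}

theorem pow_mono_of_one_mem {L : Submodule k K} (hL : (1 : K) ∈ L) {s t : ℕ} (h : s ≤ t) :
    L ^ s ≤ L ^ t := by
  have h1 : (1 : Submodule k K) ≤ L := Submodule.one_le.2 hL
  obtain ⟨r, rfl⟩ := Nat.exists_eq_add_of_le h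
  rw [pow_add]
  calc L ^ s = L ^ s * 1 := (mul_one _).symm
    _ ≤ L ^ s * L ^ r := mul_le_mul' le_rfl (Submodule.one_le.2 (by
        have := Submodule.pow_mem_pow L hL r
        rwa [one_pow] at this))

/-- Monomials in algebraically independent elements of `L`. -/
theorem card_le_finrank_pow {L : Submodule k K} (hL : (1 : K) ∈ L) (hfg : L.FG)
    {w : Fin n → K} (hw : AlgebraicIndependent k w) (hwL : ∀ i, w i ∈ L) (b t : ℕ)
    (hbt : n * b ≤ t) : (b + 1) ^ n ≤ finrank k (L ^ t : Submodule k K) := by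
  classical
  have hfd : FiniteDimensional k (L ^ t : Submodule k K) :=
    Module.Finite.iff_fg.2 (hfg.pow t)
  let ex : (Fin n → Fin (b + 1)) → (Fin n →₀ ℕ) := fun β =>
    Finsupp.equivFunOnFinite.symm fun i => (β i : ℕ)
  have hex : Function.Injective ex := by
    intro β β' h
    have h1 := Finsupp.equivFunOnFinite.symm.injective h
    funext i
    exact Fin.ext (congrFun h1 i)
  have hind0 : LinearIndependent k fun α : Fin n →₀ ℕ =>
      MvPolynomial.aeval w (MvPolynomial.monomial α (1 : k)) := by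
    have h1 := (MvPolynomial.basisMonomials (Fin n) k).linearIndependent.map'
      (MvPolynomial.aeval w : MvPolynomial (Fin n) k →ₐ[k] K).toLinearMap
      (LinearMap.ker_eq_bot.2 hw)
    have e : (MvPolynomial.aeval w : MvPolynomial (Fin n) k →ₐ[k] K).toLinearMap ∘
        (MvPolynomial.basisMonomials (Fin n) k) =
        fun α : Fin n →₀ ℕ => MvPolynomial.aeval w (MvPolynomial.monomial α (1 : k)) := by
      funext α
      rw [Function.comp_apply, MvPolynomial.coe_basisMonomials]
      rfl
    rwa [e] at h1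
  have hval : ∀ β, MvPolynomial.aeval w (MvPolynomial.monomial (ex β) (1 : k)) =
      ∏ i, w i ^ (β i : ℕ) := by
    intro β
    rw [MvPolynomial.aeval_monomial, map_one, one_mul, Finsupp.prod_fintype]
    · rfl
    · intro i; exact pow_zero _
  have hmem : ∀ β : Fin n → Fin (b + 1), ∏ i, w i ^ (β i : ℕ) ∈ L ^ t := by
    intro β
    have h1 : ∀ s : Finset (Fin n), ∏ i ∈ s, w i ^ (β i : ℕ) ∈ L ^ (∑ i ∈ s, (β i : ℕ)) := by
      intro s
      induction s using Finset.induction with
      | empty => simp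
      | insert i s hi ih =>
        rw [Finset.prod_insert hi, Finset.sum_insert hi, pow_add]
        exact Submodule.mul_mem_mul (Submodule.pow_mem_pow L (hwL i) _) ih
    refine pow_mono_of_one_mem hL ?_ (h1 Finset.univ)
    calc ∑ i, (β i : ℕ) ≤ ∑ _i : Fin n, b :=
          Finset.sum_le_sum fun i _ => Nat.lt_succ_iff.1 (β i).2
      _ = n * b := by simp
      _ ≤ t := hbt
  have hind : LinearIndependent k fun β : Fin n → Fin (b + 1) =>
      (⟨∏ i, w i ^ (β i : ℕ), hmem β⟩ : (L ^ t : Submodule k K)) := by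
    refine LinearIndependent.of_comp (L ^ t : Submodule k K).subtype ?_
    have e : (L ^ t : Submodule k K).subtype ∘ (fun β : Fin n → Fin (b + 1) =>
        (⟨∏ i, w i ^ (β i : ℕ), hmem β⟩ : (L ^ t : Submodule k K))) =
        (fun α : Fin n →₀ ℕ => MvPolynomial.aeval w (MvPolynomial.monomial α (1 : k))) ∘ ex := by
      funext β
      exact (hval β).symm
    rw [e]
    exact hind0.comp ex hex
  have h2 := hind.fintype_card_le_finrank
  simpa using h2

/-- **Growth.** -/
theorem growth (hn : Algebra.trdeg k K = n) {L : Submodule k K} (hfg : L.FG) (hL : (1 : K) ∈ L)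
    (hbir : TG.Bir L) :
    ∃ c₁ c₂ : ℝ, 0 < c₁ ∧ ∀ᶠ s : ℕ in atTop, c₁ * (s : ℝ) ^ n ≤ finrank k (L ^ s : Submodule k K) ∧
      (finrank k (L ^ s : Submodule k K) : ℝ) ≤ c₂ * (s : ℝ) ^ n := by
  have hfd : FiniteDimensional k L := Module.Finite.iff_fg.2 hfg
  -- `k(L) = K`
  have hadj : IntermediateField.adjoin k (L : Set K) = ⊤ := by
    rw [eq_top_iff, ← hbir]
    refine IntermediateField.adjoin_le_iff.2 ?_
    rintro x ⟨f, hf, g, hg, rfl⟩
    exact div_mem (IntermediateField.subset_adjoin k _ hg) (IntermediateField.subset_adjoin k _ hf)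
  have h1 : Algebra.IsAlgebraic (Algebra.adjoin k (L : Set K)) K := by
    constructor
    intro x
    rw [← IntermediateField.isAlgebraic_adjoin_iff, hadj]
    exact isAlgebraic_algebraMap (⟨x, trivial⟩ : (⊤ : IntermediateField k K))
  obtain ⟨S, hSL, hS⟩ := exists_isTranscendenceBasis_subset (R := k) (L : Set K)
  have hcard : Cardinal.mk S = n := by rw [hS.cardinalMk_eq_trdeg, hn]
  have hfin : S.Finite := Cardinal.lt_aleph0_iff_set_finite.1 (by
    rw [hcard]; exact Cardinal.natCast_lt_aleph0)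
  have : Finite S := hfin
  have hnS : Nat.card S = n := by rw [Nat.card, hcard, Cardinal.toNat_natCast]
  let e : Fin n ≃ S := (Finite.equivFinOfCardEq hnS).symm
  have hw : AlgebraicIndependent k fun i : Fin n => ((e i : S) : K) := hS.1.comp e e.injective
  have hwL : ∀ i, ((e i : S) : K) ∈ L := fun i => hSL (e i).2
  obtain ⟨C, hC⟩ := ALB.growth n hn.le L
  have hsup : (1 ⊔ L : Submodule k K) = L := sup_eq_right.2 (Submodule.one_le.2 hL)
  rw [hsup] at hC
  refine ⟨1 / (n : ℝ) ^ n, (C : ℝ) * 2 ^ n, ?_, ?_⟩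
  · rcases Nat.eq_zero_or_pos n with h0 | h0
    · subst h0; simp
    · have : (0 : ℝ) < n := by exact_mod_cast h0
      positivity
  · filter_upwards [eventually_gt_atTop 0] with t ht
    constructor
    · have h2 := card_le_finrank_pow hL hfg hw hwL (t / n) t (Nat.mul_div_le t n)
      have h3 : ((t / n : ℕ) + 1 : ℝ) ^ n ≤ finrank k (L ^ t : Submodule k K) := by
        exact_mod_cast h2
      refine le_trans ?_ h3
      have h4 : (1 / (n : ℝ) ^ n) * (t : ℝ) ^ n = ((t : ℝ) / n) ^ n := by
        rw [div_pow]; ring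
      rw [h4]
      refine pow_le_pow_left₀ (by positivity) ?_ n
      exact (Nat.lt_floor_add_one ((t : ℝ) / n)).le.trans (by rw [Nat.floor_div_eq_div])
    · have h2 : (finrank k (L ^ t : Submodule k K) : ℝ) ≤ C * ((t : ℝ) + 1) ^ n := by
        exact_mod_cast hC t
      refine h2.trans ?_
      have h3 : ((t : ℝ) + 1) ^ n ≤ 2 ^ n * (t : ℝ) ^ n := by
        rw [← mul_pow]
        refine pow_le_pow_left₀ (by positivity) ?_ n
        have : (1 : ℝ) ≤ t := by exact_mod_cast ht
        linarith
      calc (C : ℝ) * ((t : ℝ) + 1) ^ n ≤ C * (2 ^ n * (t : ℝ) ^ n) :=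
            mul_le_mul_of_nonneg_left h3 (Nat.cast_nonneg _)
        _ = C * 2 ^ n * (t : ℝ) ^ n := by ring

end Pool.Agent.TG15
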