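import Pool.Agent.Lib.TG15.LemN
import Pool.Agent.Lib.TG15.Grow

/-!
# TANK G, section B: THE START
-/

set_option autoImplicit false

namespace Pool.Agent.TG15

open Pool.Agent.TG (Ov ZDim IsMin ch IsModel)
open Module

universe u

variable {k K : Type u} [Field k] [Field K] [Algebra k K] {n : ℕ}

/-- Telescoping. -/
theorem sum_shift (b : ℕ → ℕ) (hb : Monotone b) (s t : ℕ) :
    ∑ i ∈ Finset.range t, (b i - if s ≤ i then b (i - s) else 0) ≤ s * b t := by
  have h1 : ∀ t : ℕ, ∑ i ∈ Finset.range t, (if s ≤ i then b (i - s) else 0) =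
      ∑ i ∈ Finset.range (t - s), b i := by
    intro t
    induction t with
    | zero => simp
    | succ t ih =>
      rw [Finset.sum_range_succ, ih]
      split_ifs with h
      · rw [show t + 1 - s = (t - s) + 1 by omega, Finset.sum_range_succ]
      · rw [show t + 1 - s = 0 by omega, show t - s = 0 by omega, add_zero]
  have h2 : ∑ i ∈ Finset.range t, (b i - if s ≤ i then b (i - s) else 0) +
      ∑ i ∈ Finset.range t, (if s ≤ i then b (i - s) else 0) = ∑ i ∈ Finset.range t, b i := by
    rw [← Finset.sum_add_distrib]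
    refine Finset.sum_congr rfl fun i _ => Nat.sub_add_cancel ?_
    split_ifs with h
    · exact hb (Nat.sub_le _ _)
    · exact Nat.zero_le _
  have h3 : ∑ i ∈ Finset.range t, b i = ∑ i ∈ Finset.range (t - s), b i +
      ∑ i ∈ Finset.Ico (t - s) t, b i :=
    (Finset.sum_range_add_sum_Ico _ (Nat.sub_le _ _)).symm
  have h4 : ∑ i ∈ Finset.Ico (t - s) t, b i ≤ s * b t := by
    have h5 := Finset.sum_le_card_nsmul (Finset.Ico (t - s) t) b (b t) fun i hi =>
      hb (Finset.mem_Ico.1 hi).2.le
    rw [smul_eq_mul, Nat.card_Ico] at h5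
    refine h5.trans (Nat.mul_le_mul_right _ (by omega))
  rw [h1 t] at h2
  omega

theorem finrank_smulK {q : K} (hq : q ≠ 0) (A : Submodule k K) :
    finrank k (smulK q A) = finrank k A := by
  have hinj : Function.Injective (LinearMap.mulLeft k q) := fun x y hxy => by
    have h3 : q * x = q * y := hxy
    exact mul_left_cancel₀ hq h3
  exact (LinearEquiv.finrank_eq (Submodule.equivMapOfInjective _ hinj A)).symm

theorem smulK_le {q : K} {A B : Submodule k K} {s t : ℕ} {L : Submodule k K} (hq : q ∈ L ^ s)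
    (hA : A ≤ L ^ t) (hB : L ^ (s + t) ≤ B) : smulK q A ≤ B := by
  rintro _ ⟨x, hx, rfl⟩
  refine hB ?_
  rw [pow_add]
  exact Submodule.mul_mem_mul hq (hA hx)

theorem start_r (q : (Fin (n + 1) → K) → K) {L : Submodule k K} (hfg : L.FG) (h1 : (1 : K) ∈ L)
    {c' m : ℕ} (hq : ∀ g : Fin (n + 1) → K, (∀ j, g j ∈ L ^ (m + 1)) →
      q g ∈ L ^ ((n + 1) * (m + 1) + c')) (hc' : c' ≤ m) (i : ℕ) :
    ri q (L ^ (m + 1)) (L ^ ((m + 1) * i)) i ≤ finrank k (L ^ ((m + 1) * i) : Submodule k K) -
      (if n + 2 ≤ i then finrank k (L ^ ((m + 1) * (i - (n + 2))) : Submodule k K) else 0) := by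
  have hfd : ∀ s, FiniteDimensional k (L ^ s : Submodule k K) := fun s =>
    Module.Finite.iff_fg.2 (hfg.pow s)
  refine csSup_le' ?_
  rintro d ⟨g, hg, hq0, rfl⟩
  rw [← pow_mul]
  refine Nat.sub_le_sub_left ?_ _
  split_ifs with hi
  · have hsub : smulK (q g) (L ^ ((m + 1) * (i - (n + 2)))) ≤
        bi (L ^ (m + 1)) (L ^ ((m + 1) * i)) i (q g) := by
      refine le_inf ?_ (Submodule.map_mono (pow_mono_of_one_mem h1 ?_))
      · refine smulK_le (hq g hg) le_rfl ?_
        rw [← pow_mul]
        refine pow_mono_of_one_mem h1 ?_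
        obtain ⟨r, rfl⟩ := Nat.exists_eq_add_of_le hi
        rw [Nat.add_sub_cancel_left]
        nlinarith
      · exact Nat.mul_le_mul_left _ (Nat.sub_le _ _)
    have h2 : FiniteDimensional k (bi (L ^ (m + 1)) (L ^ ((m + 1) * i)) i (q g)) := by
      have h3 : FiniteDimensional k ((L ^ (m + 1)) ^ i : Submodule k K) := by
        rw [← pow_mul]; exact hfd _
      exact Submodule.finiteDimensional_of_le inf_le_left
    rw [← finrank_smulK hq0]
    exact Submodule.finrank_mono hsub
  · exact Nat.zero_le _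

theorem start_th {L : Submodule k K} (hfg : L.FG) (h1 : (1 : K) ∈ L) {c m : ℕ} {τ : K}
    (hτ0 : τ ≠ 0) (hτ : τ ∈ L ^ c) (hc : c ≤ m) (i : ℕ) :
    thi L (c + m) τ (L ^ m) i ≤ finrank k (L ^ ((m + 1) * i) : Submodule k K) -
      (if 1 ≤ i then finrank k (L ^ ((m + 1) * (i - 1)) : Submodule k K) else 0) := by
  have hfd : ∀ s, FiniteDimensional k (L ^ s : Submodule k K) := fun s =>
    Module.Finite.iff_fg.2 (hfg.pow s)
  have hLb : L ≠ ⊥ := by
    intro h
    rw [h, Submodule.mem_bot] at h1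
    exact one_ne_zero h1
  have hLM : L ^ m * L = L ^ (m + 1) := (pow_succ L m).symm
  rw [thi, ti, hLM, ← pow_mul]
  refine Nat.sub_le_sub_left ?_ _
  split_ifs with hi
  · have hsub : smulK τ (L ^ ((m + 1) * (i - 1))) ≤
        vanish (L ^ (m + 1)) i (Tp L (c + m) τ (L ^ m)) := by
      rintro _ ⟨x, hx, rfl⟩
      have hxmem : τ * x ∈ L ^ ((m + 1) * i) := by
        have h3 : τ * x ∈ L ^ (c + (m + 1) * (i - 1)) := by
          rw [pow_add]
          exact Submodule.mul_mem_mul hτ hx
        refine pow_mono_of_one_mem h1 ?_ h3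
        obtain ⟨r, rfl⟩ := Nat.exists_eq_add_of_le hi
        rw [Nat.add_sub_cancel_left]
        nlinarith
      refine ⟨by rw [← pow_mul]; exact hxmem, ?_⟩
      rintro V ⟨hov, hV⟩
      rw [← pow_mul]
      by_cases hx0 : x = 0
      · left
        rw [hx0, map_zero]
      obtain ⟨l, hl⟩ := TG.exists_isMin hov ⟨hfg, hLb⟩
      have hvl : 0 < V.valuation l := zero_lt_iff.2 ((Valuation.ne_zero_iff _).2 hl.ne)
      have h1l : 1 ≤ V.valuation l := by
        have := (div_mem_iff hl.ne).1 (hl.div 1 h1)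
        rwa [map_one] at this
      have hvτ : V.valuation τ < V.valuation l ^ c := by
        rcases hV (l ^ m) (Submodule.pow_mem_pow L hl.mem m) with h0 | ⟨y, hy, hyv⟩
        · exact absurd h0 (mul_ne_zero hτ0 (pow_ne_zero _ hl.ne))
        · have h3 := (div_mem_iff (pow_ne_zero _ hl.ne)).1 ((hl.pow hov (c + m)).div y hy)
          have h4 := hyv.trans_le h3
          rw [map_mul, map_pow, map_pow, pow_add] at h4
          exact lt_of_mul_lt_mul_right h4 (pow_pos hvl m).le
      right
      refine ⟨l ^ ((m + 1) * i), Submodule.pow_mem_pow L hl.mem _, ?_⟩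
      have h5 := (div_mem_iff (pow_ne_zero _ hl.ne)).1
        ((hl.pow hov ((m + 1) * (i - 1))).div x hx)
      rw [map_pow] at h5
      rw [LinearMap.mulLeft_apply, map_mul, map_pow]
      calc V.valuation τ * V.valuation x
          ≤ V.valuation τ * V.valuation l ^ ((m + 1) * (i - 1)) := mul_le_mul_right h5 _
        _ < V.valuation l ^ c * V.valuation l ^ ((m + 1) * (i - 1)) :=
            mul_lt_mul_of_pos_right hvτ (pow_pos hvl _)
        _ = V.valuation l ^ (c + (m + 1) * (i - 1)) := (pow_add _ _ _).symm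
        _ ≤ V.valuation l ^ ((m + 1) * i) := by
            refine pow_le_pow_right₀ h1l ?_
            obtain ⟨r, rfl⟩ := Nat.exists_eq_add_of_le hi
            rw [Nat.add_sub_cancel_left]
            nlinarith
    have h2 : FiniteDimensional k (vanish (L ^ (m + 1)) i (Tp L (c + m) τ (L ^ m))) := by
      have h3 : FiniteDimensional k ((L ^ (m + 1)) ^ i : Submodule k K) := by
        rw [← pow_mul]; exact hfd _
      exact Submodule.finiteDimensional_of_le (vanish_le _ _ _)
    rw [← finrank_smulK hτ0]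
    exact Submodule.finrank_mono hsub
  · exact Nat.zero_le _

/-- **THE START.** -/
theorem startStmt (n : ℕ) : StartStmt k K n := by
  intro q L hfg h1 c' hq c τ hτ0 hτ m hc hc' t
  have hfd : ∀ s, FiniteDimensional k (L ^ s : Submodule k K) := fun s =>
    Module.Finite.iff_fg.2 (hfg.pow s)
  have hLM : L ^ m * L = L ^ (m + 1) := (pow_succ L m).symm
  have hmono : Monotone fun i : ℕ => finrank k (L ^ ((m + 1) * i) : Submodule k K) :=
    fun i j hij => Submodule.finrank_mono (pow_mono_of_one_mem h1 (Nat.mul_le_mul_left _ hij))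
  rw [Ft, hLM, ← pow_mul, Finset.sum_add_distrib]
  have h2 : ∑ i ∈ Finset.range t, ri q (L ^ (m + 1)) (L ^ ((m + 1) * i)) i ≤
      (n + 2) * finrank k (L ^ ((m + 1) * t) : Submodule k K) :=
    (Finset.sum_le_sum fun i _ => start_r q hfg h1 (hq (m + 1)) hc' i).trans
      (sum_shift _ hmono (n + 2) t)
  have h3 : ∑ i ∈ Finset.range t, thi L (c + m) τ (L ^ m) i ≤
      1 * finrank k (L ^ ((m + 1) * t) : Submodule k K) :=
    (Finset.sum_le_sum fun i _ => start_th hfg h1 hτ0 hτ hc i).trans (sum_shift _ hmono 1 t)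
  nlinarith

end Pool.Agent.TG15
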