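import Pool.Agent.Lib.TG15.Step
import Pool.Agent.Lib.TG15.Start
import Pool.Agent.Lib.TGBC_h29.G1Fin

/-!
# TANK G, section B: the main result G1, in the fixed level form `TGBC.G1Fin`
-/

set_option autoImplicit false

namespace Pool.Agent.TG15

universe u

/-- **G1** (block B). -/
theorem g1Fin (k K : Type u) [Field k] [Field K] [Algebra k K] (n : ℕ) : TGBC.G1Fin k K n :=
  TGBC.g1fin (lemD k K) (stepStmt k K n) (startStmt n)

end Pool.Agent.TG15
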