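import Pool.Agent.Lib.TG15.Defs
import Pool.Agent.Lib.TG.Basic

/-!
# TANK G, section B: LEMMA D (helper68)
-/

set_option autoImplicit false

namespace Pool.Agent.TG15

open Pool.Agent.TG (Ov ZDim IsMin ch)
open Module

universe u

variable {k K : Type u} [Field k] [Field K] [Algebra k K] {V : ValuationSubring K}
  {H H' E : Submodule k K} {f₀ : K}

/-- `f / f₀ ^ i` lies in the chart for `f ∈ H ^ i`. -/
theorem pow_div_mem_ch (H : Submodule k K) (f₀ : K) (i : ℕ) {f : K} (hf : f ∈ H ^ i) :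
    f / f₀ ^ i ∈ ch H f₀ := by
  induction i generalizing f with
  | zero =>
    rw [pow_zero] at hf
    obtain ⟨c, rfl⟩ := Submodule.mem_one.1 hf
    rw [pow_zero, div_one]
    exact (ch H f₀).algebraMap_mem c
  | succ i ih =>
    rw [pow_succ] at hf
    refine Submodule.mul_induction_on hf (fun a ha b hb => ?_) (fun a b ha hb => ?_)
    · rw [pow_succ, mul_div_mul_comm]
      exact (ch H f₀).mul_mem (ih ha) (TG.div_mem_ch hb)
    · rw [add_div]
      exact (ch H f₀).add_mem ha hb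

/-- The element `f / f₀ ^ i` of the chart. -/
def dv (H : Submodule k K) (f₀ : K) (i : ℕ) (f : (H ^ i : Submodule k K)) : ch H f₀ :=
  ⟨(f : K) / f₀ ^ i, pow_div_mem_ch H f₀ i f.2⟩

/-- `f ↦ f / f₀ ^ i`. -/
def dvL (H : Submodule k K) (f₀ : K) (i : ℕ) : (H ^ i : Submodule k K) →ₗ[k] ch H f₀ where
  toFun := dv H f₀ i
  map_add' a b := Subtype.ext (add_div _ _ _)
  map_smul' c a := Subtype.ext (by
    show (c • (a : K)) / f₀ ^ i = c • ((a : K) / f₀ ^ i)
    rw [Algebra.smul_def, Algebra.smul_def, mul_div_assoc])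

theorem dvL_coe (H : Submodule k K) (f₀ : K) (i : ℕ) (f : (H ^ i : Submodule k K)) :
    (dvL H f₀ i f : K) = (f : K) / f₀ ^ i := rfl

/-- `H = k f₀ + H_x`. -/
theorem exists_res (hV : ZDim k V) (hf : IsMin V H f₀) {h : K} (hh : h ∈ H) :
    ∃ c : k, h - c • f₀ ∈ hx V H := by
  obtain ⟨c, hc⟩ := hV.res _ (hf.div h hh)
  refine ⟨c, Submodule.sub_mem _ hh (Submodule.smul_mem _ c hf.mem), Or.inr ⟨f₀, hf.mem, ?_⟩⟩
  have h1 : h - c • f₀ = (h / f₀ - algebraMap k K c) * f₀ := by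
    rw [sub_mul, div_mul_cancel₀ _ hf.ne, Algebra.smul_def]
  rw [h1, map_mul]
  have h2 : V.valuation f₀ ≠ 0 := (Valuation.ne_zero_iff _).2 hf.ne
  calc V.valuation (h / f₀ - algebraMap k K c) * V.valuation f₀
      < 1 * V.valuation f₀ := mul_lt_mul_of_pos_right hc (zero_lt_iff.2 h2)
    _ = V.valuation f₀ := one_mul _

theorem hx_le : hx V H ≤ H := fun _ h => h.1

/-- The chart is `k + m`. -/
theorem exists_const (hV : ZDim k V) (hf : IsMin V H f₀) (a : ch H f₀) :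
    ∃ c : k, a - algebraMap k (ch H f₀) c ∈ mx H f₀ (hx V H) := by
  obtain ⟨a, ha⟩ := a
  refine Algebra.adjoin_induction (R := k) (s := (fun g => g / f₀) '' (H : Set K))
    (p := fun a ha => ∃ c : k, (⟨a, ha⟩ : ch H f₀) - algebraMap k (ch H f₀) c ∈
      mx H f₀ (hx V H)) ?_ ?_ ?_ ?_ ha
  · rintro _ ⟨h, hh, rfl⟩
    obtain ⟨c, hc⟩ := exists_res hV hf hh
    refine ⟨c, Ideal.subset_span ⟨h - c • f₀, hc, ?_⟩⟩
    show h / f₀ - algebraMap k K c = (h - c • f₀) / f₀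
    rw [sub_div, Algebra.smul_def, mul_div_cancel_right₀ _ hf.ne]
  · intro c
    refine ⟨c, ?_⟩
    have h1 : (⟨algebraMap k K c, (ch H f₀).algebraMap_mem c⟩ : ch H f₀) -
        algebraMap k (ch H f₀) c = 0 := Subtype.ext (sub_self (algebraMap k K c))
    rw [h1]
    exact Ideal.zero_mem _
  · rintro x y hx hy ⟨c, hc⟩ ⟨d, hd⟩
    refine ⟨c + d, ?_⟩
    have h1 : (⟨x + y, add_mem hx hy⟩ : ch H f₀) - algebraMap k (ch H f₀) (c + d) =
        ((⟨x, hx⟩ : ch H f₀) - algebraMap k (ch H f₀) c) +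
          ((⟨y, hy⟩ : ch H f₀) - algebraMap k (ch H f₀) d) := by
      rw [map_add]
      exact Subtype.ext (add_sub_add_comm x y _ _)
    rw [h1]
    exact Ideal.add_mem _ hc hd
  · rintro x y hx hy ⟨c, hc⟩ ⟨d, hd⟩
    refine ⟨c * d, ?_⟩
    have h1 : (⟨x * y, mul_mem hx hy⟩ : ch H f₀) - algebraMap k (ch H f₀) (c * d) =
        ((⟨x, hx⟩ : ch H f₀) - algebraMap k (ch H f₀) c) * (⟨y, hy⟩ : ch H f₀) +
          algebraMap k (ch H f₀) c * ((⟨y, hy⟩ : ch H f₀) - algebraMap k (ch H f₀) d) := by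
      rw [map_mul]
      refine Subtype.ext ?_
      show x * y - algebraMap k K c * algebraMap k K d =
        (x - algebraMap k K c) * y + algebraMap k K c * (y - algebraMap k K d)
      ring
    rw [h1]
    exact Ideal.add_mem _ (Ideal.mul_mem_right _ _ hc) (Ideal.mul_mem_left _ _ hd)

/-- `m ^ i = (H_x / f₀) ^ i + m ^ (i + 1)`. -/
theorem exists_top (hV : ZDim k V) (hf : IsMin V H f₀) (i : ℕ) (a : ch H f₀)
    (ha : a ∈ mx H f₀ (hx V H) ^ i) :
    ∃ f : (H ^ i : Submodule k K), a - dvL H f₀ i f ∈ mx H f₀ (hx V H) ^ (i + 1) := by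
  -- degree one
  have h1 : ∀ a ∈ mx H f₀ (hx V H), ∃ f ∈ H, ∃ b : ch H f₀, (b : K) = f / f₀ ∧
      a - b ∈ mx H f₀ (hx V H) ^ 2 := by
    intro a ha
    refine Submodule.span_induction (p := fun a _ => ∃ f ∈ H, ∃ b : ch H f₀, (b : K) = f / f₀ ∧
      a - b ∈ mx H f₀ (hx V H) ^ 2) ?_ ?_ ?_ ?_ ha
    · rintro a ⟨h, hh, hha⟩
      exact ⟨h, hx_le hh, a, hha, by rw [sub_self]; exact Ideal.zero_mem _⟩
    · exact ⟨0, Submodule.zero_mem _, 0, by simp, by rw [sub_self]; exact Ideal.zero_mem _⟩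
    · rintro x y _ _ ⟨f, hf, b, hb, hxb⟩ ⟨g, hg, c, hc, hyc⟩
      refine ⟨f + g, add_mem hf hg, b + c, ?_, ?_⟩
      · rw [add_div, ← hb, ← hc]; rfl
      · rw [add_sub_add_comm]
        exact Ideal.add_mem _ hxb hyc
    · rintro r x hx ⟨f, hf', b, hb, hxb⟩
      obtain ⟨c, hc⟩ := exists_const hV hf r
      refine ⟨c • f, Submodule.smul_mem _ c hf', algebraMap k (ch H f₀) c * b, ?_, ?_⟩
      · show algebraMap k K c * (b : K) = _
        rw [hb, Algebra.smul_def, mul_div_assoc]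
      · have h2 : r • x - algebraMap k (ch H f₀) c * b =
            (r - algebraMap k (ch H f₀) c) * x + algebraMap k (ch H f₀) c * (x - b) := by
          rw [smul_eq_mul]; ring
        rw [h2, pow_two]
        refine Ideal.add_mem _ (Ideal.mul_mem_mul hc hx) (Ideal.mul_mem_left _ _ ?_)
        rw [← pow_two]
        exact hxb
  induction i generalizing a with
  | zero =>
    obtain ⟨c, hc⟩ := exists_const hV hf a
    refine ⟨⟨algebraMap k K c, ?_⟩, ?_⟩
    · rw [pow_zero]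
      exact Submodule.mem_one.2 ⟨c, rfl⟩
    · rw [zero_add, pow_one]
      have h2 : dvL H f₀ 0 ⟨algebraMap k K c, by
          rw [pow_zero]; exact Submodule.mem_one.2 ⟨c, rfl⟩⟩ = algebraMap k (ch H f₀) c :=
        Subtype.ext (by
          show algebraMap k K c / f₀ ^ 0 = algebraMap k K c
          rw [pow_zero f₀, div_one])
      rw [h2]
      exact hc
  | succ i ih =>
    rw [pow_succ] at ha
    refine Submodule.mul_induction_on ha (fun b hb c hc => ?_) (fun x y hx hy => ?_)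
    · obtain ⟨f, hf1⟩ := ih b hb
      obtain ⟨g, hg, c', hc', hc2⟩ := h1 c hc
      refine ⟨⟨(f : K) * g, by rw [pow_succ]; exact Submodule.mul_mem_mul f.2 hg⟩, ?_⟩
      have h2 : dvL H f₀ (i + 1) ⟨(f : K) * g, by
          rw [pow_succ]; exact Submodule.mul_mem_mul f.2 hg⟩ = dvL H f₀ i f * c' := by
        refine Subtype.ext ?_
        show (f : K) * g / f₀ ^ (i + 1) = (f : K) / f₀ ^ i * (c' : K)
        rw [hc', pow_succ, mul_div_mul_comm]
      rw [h2]
      have h3 : b * c - dvL H f₀ i f * c' = (b - dvL H f₀ i f) * c + dvL H f₀ i f * (c - c') := by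
        ring
      rw [h3]
      have h4 : dvL H f₀ i f ∈ mx H f₀ (hx V H) ^ i := by
        have := Ideal.sub_mem _ hb (Ideal.pow_le_pow_right (Nat.le_succ i) hf1)
        rwa [sub_sub_cancel] at this
      refine Ideal.add_mem _ ?_ ?_
      · have := Ideal.mul_mem_mul hf1 hc
        rwa [← pow_succ] at this
      · have := Ideal.mul_mem_mul h4 hc2
        rwa [← pow_add] at this
    · obtain ⟨f, hf1⟩ := hx
      obtain ⟨g, hg1⟩ := hy
      refine ⟨f + g, ?_⟩
      rw [map_add, add_sub_add_comm]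
      exact Ideal.add_mem _ hf1 hg1

/-- `H ^ i → R / m ^ i` is onto. -/
theorem exists_dvL (hV : ZDim k V) (hf : IsMin V H f₀) (i : ℕ) (a : ch H f₀) :
    ∃ f : (H ^ i : Submodule k K), a - dvL H f₀ i f ∈ mx H f₀ (hx V H) ^ i := by
  induction i with
  | zero => exact ⟨0, by rw [pow_zero, Ideal.one_eq_top]; exact Submodule.mem_top⟩
  | succ i ih =>
    obtain ⟨f, hf1⟩ := ih
    obtain ⟨g, hg⟩ := exists_top hV hf i _ hf1
    have hmem : ∀ x : (H ^ i : Submodule k K), (x : K) * f₀ ∈ H ^ (i + 1) := fun x => by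
      rw [pow_succ]; exact Submodule.mul_mem_mul x.2 hf.mem
    refine ⟨⟨((f + g : (H ^ i : Submodule k K)) : K) * f₀, hmem _⟩, ?_⟩
    have h2 : dvL H f₀ (i + 1) ⟨((f + g : (H ^ i : Submodule k K)) : K) * f₀, hmem _⟩ =
        dvL H f₀ i f + dvL H f₀ i g := by
      rw [← map_add]
      refine Subtype.ext ?_
      show ((f + g : (H ^ i : Submodule k K)) : K) * f₀ / f₀ ^ (i + 1) =
        ((f + g : (H ^ i : Submodule k K)) : K) / f₀ ^ i
      rw [pow_succ, mul_div_mul_right _ _ hf.ne]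
    rw [h2, ← sub_sub]
    exact hg

/-- `H' ^ i / f₀ ^ i ⊆ m ^ i`. -/
theorem dvL_mem_pow (hH' : H' ≤ hx V H) (i : ℕ) (f : K) (hf : f ∈ H' ^ i)
    (hfH : f ∈ H ^ i) : dvL H f₀ i ⟨f, hfH⟩ ∈ mx H f₀ (hx V H) ^ i := by
  have hle : H' ≤ H := hH'.trans hx_le
  suffices h : ∀ f ∈ H' ^ i, ∃ hfH : f ∈ H ^ i, dvL H f₀ i ⟨f, hfH⟩ ∈ mx H f₀ (hx V H) ^ i by
    obtain ⟨_, h⟩ := h f hf
    exact h
  clear hf hfH f
  induction i with
  | zero =>
    intro f hf
    refine ⟨by rw [pow_zero] at hf ⊢; exact hf, ?_⟩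
    rw [pow_zero, Ideal.one_eq_top]
    exact Submodule.mem_top
  | succ i ih =>
    intro f hf
    rw [pow_succ] at hf
    refine Submodule.mul_induction_on hf (fun a ha b hb => ?_) (fun a b ha hb => ?_)
    · obtain ⟨haH, ha1⟩ := ih a ha
      refine ⟨by rw [pow_succ]; exact Submodule.mul_mem_mul haH (hle hb), ?_⟩
      have hb1 : (⟨b / f₀, TG.div_mem_ch (hle hb)⟩ : ch H f₀) ∈ mx H f₀ (hx V H) :=
        Ideal.subset_span ⟨b, hH' hb, rfl⟩
      have h2 : dvL H f₀ (i + 1) ⟨a * b, by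
          rw [pow_succ]; exact Submodule.mul_mem_mul haH (hle hb)⟩ =
          dvL H f₀ i ⟨a, haH⟩ * (⟨b / f₀, TG.div_mem_ch (hle hb)⟩ : ch H f₀) := by
        refine Subtype.ext ?_
        show a * b / f₀ ^ (i + 1) = a / f₀ ^ i * (b / f₀)
        rw [pow_succ, mul_div_mul_comm]
      rw [h2, pow_succ]
      exact Ideal.mul_mem_mul ha1 hb1
    · obtain ⟨haH, ha1⟩ := ha
      obtain ⟨hbH, hb1⟩ := hb
      refine ⟨add_mem haH hbH, ?_⟩
      have h2 : dvL H f₀ (i + 1) ⟨a + b, add_mem haH hbH⟩ =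
          dvL H f₀ (i + 1) ⟨a, haH⟩ + dvL H f₀ (i + 1) ⟨b, hbH⟩ := by
        rw [← map_add]; rfl
      rw [h2]
      exact Ideal.add_mem _ ha1 hb1

theorem pow_mono {A B : Submodule k K} (h : A ≤ B) (i : ℕ) : A ^ i ≤ B ^ i := by
  induction i with
  | zero => rw [pow_zero, pow_zero]
  | succ i ih =>
    rw [pow_succ, pow_succ]
    exact Submodule.mul_le.2 fun a ha b hb => Submodule.mul_mem_mul (ih ha) (h hb)

/-- **LEMMA D.** -/
theorem lemD (k K : Type u) [Field k] [Field K] [Algebra k K] : LemD k K := by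
  intro V hV H hH f₀ hf H' hH' i E hE
  have hle : H' ≤ H := hH'.trans hx_le
  have hHi : (H ^ i : Submodule k K).FG := hH.pow i
  haveI : FiniteDimensional k (H ^ i : Submodule k K) := Module.Finite.iff_fg.2 hHi
  obtain ⟨J, hJ⟩ : ∃ J : Ideal (ch H f₀), J = ix H f₀ i E ⊔ mx H f₀ (hx V H) ^ i := ⟨_, rfl⟩
  rw [← hJ]
  let π : ch H f₀ →ₗ[k] (ch H f₀ ⧸ J) := (Ideal.Quotient.mkₐ k J).toLinearMap
  let φ : (H ^ i : Submodule k K) →ₗ[k] (ch H f₀ ⧸ J) := π.comp (dvL H f₀ i)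
  have hπ : ∀ a : ch H f₀, π a = 0 ↔ a ∈ J := fun a => Ideal.Quotient.eq_zero_iff_mem
  have hsurj : Function.Surjective φ := by
    intro b
    obtain ⟨a, rfl⟩ := Ideal.Quotient.mk_surjective b
    obtain ⟨f, hf1⟩ := exists_dvL hV hf i a
    refine ⟨f, ?_⟩
    have h1 : π (a - dvL H f₀ i f) = 0 := by
      rw [hπ, hJ]
      exact Ideal.mem_sup_right hf1
    rw [map_sub, sub_eq_zero] at h1
    exact h1.symm
  have hker : E ⊔ H' ^ i ≤ (LinearMap.ker φ).map (H ^ i : Submodule k K).subtype := by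
    refine sup_le (fun f hfE => ?_) (fun f hfH' => ?_)
    · refine ⟨⟨f, hE hfE⟩, ?_, rfl⟩
      rw [SetLike.mem_coe, LinearMap.mem_ker]
      refine (hπ _).2 ?_
      rw [hJ]
      exact Ideal.mem_sup_left (Ideal.subset_span ⟨f, hfE, rfl⟩)
    · have hfH : f ∈ H ^ i := pow_mono hle i hfH'
      refine ⟨⟨f, hfH⟩, ?_, rfl⟩
      rw [SetLike.mem_coe, LinearMap.mem_ker]
      refine (hπ _).2 ?_
      rw [hJ]
      exact Ideal.mem_sup_right (dvL_mem_pow hH' i f hfH' hfH)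
  have h1 := LinearMap.finrank_range_add_finrank_ker φ
  rw [LinearMap.range_eq_top.2 hsurj, finrank_top] at h1
  have h2 : finrank k (E ⊔ H' ^ i : Submodule k K) ≤
      finrank k ((LinearMap.ker φ).map (H ^ i : Submodule k K).subtype) :=
    Submodule.finrank_mono hker
  rw [Submodule.finrank_map_subtype_eq] at h2
  omega

end Pool.Agent.TG15
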