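import Pool.Agent.Lib.TG15.LemD

/-!
# TANK G, section B: the quotients `R / J`, `m ^ i ≤ J`, are finite dimensional (helper68)
-/

set_option autoImplicit false

namespace Pool.Agent.TG15

open Pool.Agent.TG (Ov ZDim IsMin ch)
open Module

universe u

variable {k K : Type u} [Field k] [Field K] [Algebra k K] {V : ValuationSubring K}
  {H : Submodule k K} {f₀ : K}

/-- `H ^ i → R / J` is onto for `m ^ i ≤ J`. -/
theorem surjective_mk (hV : ZDim k V) (hf : IsMin V H f₀) (i : ℕ) (J : Ideal (ch H f₀))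
    (hJ : mx H f₀ (hx V H) ^ i ≤ J) : Function.Surjective
      ((Ideal.Quotient.mkₐ k J).toLinearMap.comp (dvL H f₀ i)) := by
  intro b
  obtain ⟨a, rfl⟩ := Ideal.Quotient.mk_surjective b
  obtain ⟨f, hf1⟩ := exists_dvL hV hf i a
  refine ⟨f, ?_⟩
  show Ideal.Quotient.mk J (dvL H f₀ i f) = Ideal.Quotient.mk J a
  exact ((Ideal.Quotient.mk_eq_mk_iff_sub_mem _ _).2 (hJ hf1)).symm

/-- `R / J` is finite dimensional for `m ^ i ≤ J`. -/
theorem finite_quot (hV : ZDim k V) (hH : H.FG) (hf : IsMin V H f₀) (i : ℕ)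
    (J : Ideal (ch H f₀)) (hJ : mx H f₀ (hx V H) ^ i ≤ J) :
    FiniteDimensional k (ch H f₀ ⧸ J) := by
  haveI : FiniteDimensional k (H ^ i : Submodule k K) := Module.Finite.iff_fg.2 (hH.pow i)
  exact Module.Finite.of_surjective _ (surjective_mk hV hf i J hJ)

/-- Monotonicity: `dim R / J' ≤ dim R / J` for `m ^ i ≤ J ≤ J'`. -/
theorem finrank_quot_mono (hV : ZDim k V) (hH : H.FG) (hf : IsMin V H f₀) (i : ℕ)
    {J J' : Ideal (ch H f₀)} (hJ : mx H f₀ (hx V H) ^ i ≤ J) (h : J ≤ J') :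
    finrank k (ch H f₀ ⧸ J') ≤ finrank k (ch H f₀ ⧸ J) := by
  haveI := finite_quot hV hH hf i J hJ
  refine LinearMap.finrank_le_finrank_of_surjective
    (f := (Ideal.Quotient.factorₐ k h).toLinearMap) ?_
  exact Ideal.Quotient.factor_surjective h

/-- The maximal ideal is a proper ideal. -/
theorem mx_ne_top (hV : Ov k V) (hf : IsMin V H f₀) : mx H f₀ (hx V H) ≠ ⊤ := by
  intro h
  have h1 : ∀ a ∈ mx H f₀ (hx V H), V.valuation (a : K) < 1 := by
    intro a ha
    refine Submodule.span_induction (R := ch H f₀) (M := ch H f₀)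
      (s := {a | ∃ h ∈ hx V H, (a : K) = h / f₀})
      (p := fun (a : ch H f₀) _ => V.valuation (a : K) < 1) ?_ ?_ ?_ ?_ ha
    · rintro a ⟨f, hf', hfa⟩
      rw [hfa]
      rcases hf'.2 with rfl | ⟨y, hy, hlt⟩
      · rw [zero_div, map_zero]
        exact zero_lt_one
      · have h0 : V.valuation f₀ ≠ 0 := (Valuation.ne_zero_iff _).2 hf.ne
        have h2 : V.valuation y ≤ V.valuation f₀ := by
          have h3 := (V.valuation_le_one_iff _).2 (hf.div y hy)
          rw [map_div₀] at h3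
          exact (div_le_one₀ (zero_lt_iff.2 h0)).1 h3
        rw [map_div₀, div_lt_one₀ (zero_lt_iff.2 h0)]
        exact hlt.trans_le h2
    · show V.valuation (0 : K) < 1
      rw [map_zero]
      exact zero_lt_one
    · intro x y _ _ hx' hy'
      exact (V.valuation.map_add _ _).trans_lt (max_lt hx' hy')
    · intro r x _ hx'
      show V.valuation ((r : K) * (x : K)) < 1
      rw [map_mul]
      have h3 : V.valuation (r : K) ≤ 1 := (V.valuation_le_one_iff _).2 (TG.ch_le hV hf _ r.2)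
      calc V.valuation (r : K) * V.valuation (x : K) ≤ 1 * V.valuation (x : K) := by gcongr
        _ < 1 := by rw [one_mul]; exact hx'
  have h2 := h1 1 (h ▸ Submodule.mem_top)
  rw [OneMemClass.coe_one, map_one] at h2
  exact lt_irrefl _ h2

/-- The maximal ideal is maximal. -/
theorem mx_isMaximal (hV : ZDim k V) (hf : IsMin V H f₀) :
    (mx H f₀ (hx V H)).IsMaximal := by
  refine Ideal.isMaximal_iff.2 ⟨fun h => mx_ne_top hV.ov hf ((Ideal.eq_top_iff_one _).2 h), ?_⟩
  intro J a hJ ha haJ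
  obtain ⟨c, hc⟩ := exists_const hV hf a
  have hc0 : c ≠ 0 := by
    rintro rfl
    rw [map_zero, sub_zero] at hc
    exact ha hc
  have h1 : algebraMap k (ch H f₀) c ∈ J := by
    have := Ideal.sub_mem _ haJ (hJ hc)
    rwa [sub_sub_cancel] at this
  have h2 := Ideal.mul_mem_left J (algebraMap k (ch H f₀) c⁻¹) h1
  rwa [← map_mul, inv_mul_cancel₀ hc0, map_one] at h2

end Pool.Agent.TG15
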