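import Pool.Agent.Lib.TG15.Defs
import Pool.Agent.Lib.TG.Basic

/-!
# TANK G, section B: LEMMA N (the cost of the new divisors)
-/

set_option autoImplicit false

namespace Pool.Agent.TG15

open Pool.Agent.TG (Ov ZDim IsMin ch IsModel)
open Module

universe u

variable {k K : Type u} [Field k] [Field K] [Algebra k K]

theorem vanish_le (F : Submodule k K) (i : ℕ) (P : ValuationSubring K → Prop) :
    vanish F i P ≤ F ^ i := fun _ h => h.1

theorem vanish_mono (F : Submodule k K) (i : ℕ) {P Q : ValuationSubring K → Prop}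
    (h : ∀ V, Q V → P V) : vanish F i P ≤ vanish F i Q := fun _ hf =>
  ⟨hf.1, fun V hV => hf.2 V (h V hV)⟩

/-- Finitely many valuation rings are enough. -/
theorem exists_finite_test (F : Submodule k K) (hF : F.FG) (i : ℕ)
    (P : ValuationSubring K → Prop) :
    ∃ S : Finset (ValuationSubring K), (∀ V ∈ S, P V) ∧ vanish F i (· ∈ S) = vanish F i P := by
  classical
  have hfd : FiniteDimensional k (F ^ i : Submodule k K) := Module.Finite.iff_fg.2 (hF.pow i)
  have hfdv : ∀ Q, FiniteDimensional k (vanish F i Q) := fun Q =>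
    Submodule.finiteDimensional_of_le (vanish_le F i Q)
  have hex : ∃ d : ℕ, ∃ S : Finset (ValuationSubring K), (∀ V ∈ S, P V) ∧
      finrank k (vanish F i (· ∈ S)) = d := ⟨_, ∅, by simp, rfl⟩
  obtain ⟨S, hS, hd⟩ := Nat.find_spec hex
  refine ⟨S, hS, le_antisymm (fun f hf => ⟨hf.1, fun V hV => ?_⟩)
    (vanish_mono F i fun V hV => hS V hV)⟩
  have h1 : vanish F i (· ∈ insert V S) ≤ vanish F i (· ∈ S) :=
    vanish_mono F i fun W hW => Finset.mem_insert_of_mem hW
  have h2 : finrank k (vanish F i (· ∈ S)) ≤ finrank k (vanish F i (· ∈ insert V S)) := by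
    rw [hd]
    exact Nat.find_min' hex ⟨insert V S, fun W hW => by
      rcases Finset.mem_insert.1 hW with rfl | hW
      · exact hV
      · exact hS W hW, rfl⟩
  have h3 := Submodule.eq_of_le_of_finrank_le h1 h2
  rw [← h3] at hf
  exact hf.2 V (Finset.mem_insert_self V S)

theorem not_gt_iff {V : ValuationSubring K} {x : K} {F : Submodule k K} :
    ¬ Gt V x F ↔ x ≠ 0 ∧ ∀ y ∈ F, V.valuation y ≤ V.valuation x := by
  unfold Gt
  push Not
  rfl

theorem div_mem_iff {V : ValuationSubring K} {x y : K} (hx : x ≠ 0) :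
    y / x ∈ V ↔ V.valuation y ≤ V.valuation x := by
  have h0 : V.valuation x ≠ 0 := (Valuation.ne_zero_iff _).2 hx
  rw [← V.valuation_le_one_iff, map_div₀, div_le_one₀ (zero_lt_iff.2 h0)]

theorem isMin_iff {V : ValuationSubring K} {x : K} {F : Submodule k K} :
    IsMin V F x ↔ x ∈ F ∧ ¬ Gt V x F := by
  rw [not_gt_iff]
  constructor
  · intro h
    exact ⟨h.mem, h.ne, fun y hy => (div_mem_iff h.ne).1 (h.div y hy)⟩
  · rintro ⟨h1, h2, h3⟩
    exact ⟨h1, h2, fun y hy => (div_mem_iff h2).2 (h3 y hy)⟩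

/-- One element which is minimal for finitely many valuation rings. -/
theorem exists_isMin_finset [Infinite k] {H : Submodule k K} (hH : IsModel H)
    (S : Finset (ValuationSubring K)) (hS : ∀ V ∈ S, Ov k V) :
    ∃ h ∈ H, h ≠ 0 ∧ ∀ V ∈ S, IsMin V H h := by
  classical
  let G : Finset (Submodule k H) := insert ⊥ (S.image fun V => (hx V H).comap H.subtype)
  have h1 : ⊤ ∉ G := by
    intro hc
    rcases Finset.mem_insert.1 hc with he | hc
    · apply hH.ne
      rw [Submodule.eq_bot_iff]
      intro x hx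
      have h2 : (⟨x, hx⟩ : H) ∈ (⊥ : Submodule k H) := by rw [← he]; trivial
      rw [Submodule.mem_bot] at h2
      exact congrArg Subtype.val h2
    · obtain ⟨V, hV, he⟩ := Finset.mem_image.1 hc
      obtain ⟨f, hf⟩ := TG.exists_isMin (hS V hV) hH
      have h2 : (⟨f, hf.mem⟩ : H) ∈ (hx V H).comap H.subtype := by rw [he]; trivial
      exact (isMin_iff.1 hf).2 h2.2
  have h2 := Subspace.biUnion_ne_univ_of_top_notMem h1
  obtain ⟨x, hx'⟩ := (Set.ne_univ_iff_exists_notMem _).1 h2
  rw [Set.mem_iUnion₂] at hx'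
  push Not at hx'
  refine ⟨x.1, x.2, fun h0 => ?_, fun V hV => isMin_iff.2 ⟨x.2, fun hG => ?_⟩⟩
  · refine hx' ⊥ (Finset.mem_insert_self _ _) ?_
    rw [SetLike.mem_coe, Submodule.mem_bot]
    exact Subtype.ext h0
  · exact hx' _ (Finset.mem_insert_of_mem (Finset.mem_image_of_mem _ hV)) ⟨x.2, hG⟩

/-- One layer. -/
theorem lemN_layer [Infinite k] {H H' : Submodule k K} (hH : H.FG) (hHb : H ≠ ⊥) (hle : H' ≤ H)
    {t i : ℕ} (hi : i < t) :
    finrank k (H ^ (t - (i + 1)) * H' ^ (i + 1) : Submodule k K) +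
      (finrank k (H' ^ i : Submodule k K) -
        finrank k (vanish H' i fun V => Ov k V ∧ ∀ h ∈ H', Gt V h H)) ≤
    finrank k (H ^ (t - i) * H' ^ i : Submodule k K) := by
  classical
  have hHfin : FiniteDimensional k H := Module.Finite.iff_fg.2 hH
  have hH'fin : FiniteDimensional k H' := Submodule.finiteDimensional_of_le hle
  have hH' : H'.FG := Module.Finite.iff_fg.1 hH'fin
  obtain ⟨S, hS, hSv⟩ := exists_finite_test H' hH' i fun V => Ov k V ∧ ∀ h ∈ H', Gt V h H
  obtain ⟨h, hhH, hh0, hhmin⟩ := exists_isMin_finset (k := k) ⟨hH, hHb⟩ S fun V hV => (hS V hV).1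
  rw [← hSv]
  set T := vanish H' i (· ∈ S) with hT
  have hfi : FiniteDimensional k (H' ^ i : Submodule k K) := Module.Finite.iff_fg.2 (hH'.pow i)
  have hfD : FiniteDimensional k (H ^ (t - i) * H' ^ i : Submodule k K) :=
    Module.Finite.iff_fg.2 ((hH.pow _).mul (hH'.pow _))
  have hfD' : FiniteDimensional k (H ^ (t - (i + 1)) * H' ^ (i + 1) : Submodule k K) :=
    Module.Finite.iff_fg.2 ((hH.pow _).mul (hH'.pow _))
  -- a complement
  obtain ⟨C', hC'⟩ := Submodule.exists_isCompl (T.comap (H' ^ i : Submodule k K).subtype)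
  set C := C'.map (H' ^ i : Submodule k K).subtype with hC
  have hTle : T ≤ H' ^ i := vanish_le H' i _
  have hTmap : (T.comap (H' ^ i : Submodule k K).subtype).map
      (H' ^ i : Submodule k K).subtype = T := by
    rw [Submodule.map_comap_eq, Submodule.range_subtype]
    exact inf_eq_right.2 hTle
  have hdisj : ∀ x ∈ C, x ∈ T → x = 0 := by
    rintro _ ⟨⟨x, hx⟩, hxC, rfl⟩ hxT
    have h2 : (⟨x, hx⟩ : (H' ^ i : Submodule k K)) ∈
        T.comap (H' ^ i : Submodule k K).subtype ⊓ C' := ⟨hxT, hxC⟩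
    rw [hC'.inf_eq_bot, Submodule.mem_bot] at h2
    exact congrArg Subtype.val h2
  have hrank : finrank k (H' ^ i : Submodule k K) = finrank k T + finrank k C := by
    have h2 := Submodule.finrank_add_eq_of_isCompl hC'
    rw [← h2]
    have h3 := LinearEquiv.finrank_eq (Submodule.equivMapOfInjective
      (H' ^ i : Submodule k K).subtype (Submodule.injective_subtype _)
      (T.comap (H' ^ i : Submodule k K).subtype))
    rw [hTmap] at h3
    rw [h3]
    congr 1
    exact LinearEquiv.finrank_eq (Submodule.equivMapOfInjective _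
      (Submodule.injective_subtype _) _)
  have hCle : C ≤ H' ^ i := Submodule.map_subtype_le _ _
  -- multiplication by `h ^ (t - i)`
  set μ : K →ₗ[k] K := LinearMap.mulLeft k (h ^ (t - i)) with hμ
  have hμinj : Function.Injective μ := fun x y hxy => by
    have h3 : h ^ (t - i) * x = h ^ (t - i) * y := hxy
    exact mul_left_cancel₀ (pow_ne_zero _ hh0) h3
  have hfC : FiniteDimensional k C := Submodule.finiteDimensional_of_le hCle
  have hμC : finrank k (C.map μ) = finrank k C :=
    (LinearEquiv.finrank_eq (Submodule.equivMapOfInjective μ hμinj C)).symm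
  have hsub1 : C.map μ ≤ H ^ (t - i) * H' ^ i := by
    rintro _ ⟨x, hx, rfl⟩
    exact Submodule.mul_mem_mul (Submodule.pow_mem_pow H hhH _) (hCle hx)
  have hsub2 : H ^ (t - (i + 1)) * H' ^ (i + 1) ≤ H ^ (t - i) * H' ^ i := by
    have e : t - i = (t - (i + 1)) + 1 := by omega
    rw [e, pow_succ H, pow_succ' H', mul_assoc]
    exact mul_le_mul' le_rfl (mul_le_mul' hle le_rfl)
  have hdis : Disjoint (H ^ (t - (i + 1)) * H' ^ (i + 1) : Submodule k K) (C.map μ) := by
    rw [Submodule.disjoint_def]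
    rintro _ hx ⟨f, hf, rfl⟩
    by_cases hf0 : f = 0
    · rw [hf0, map_zero]
    exfalso
    apply hf0
    refine hdisj f hf ⟨hCle hf, fun V hV => ?_⟩
    by_contra hG
    obtain ⟨hov, hVH⟩ := hS V hV
    rcases eq_or_ne H' ⊥ with hb | hb
    · rw [hb, ← Submodule.zero_eq_bot, zero_pow (Nat.succ_ne_zero i), mul_zero,
        Submodule.zero_eq_bot, Submodule.mem_bot] at hx
      exact hf0 (hμinj (by rw [hx, map_zero]))
    have hH'm : IsModel H' := ⟨hH', hb⟩
    obtain ⟨h', hh'⟩ := TG.exists_isMin hov hH'm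
    have hVh := hhmin V hV
    -- `v (h') < v (h)`
    have hlt : V.valuation h' < V.valuation h := by
      rcases hVH h' hh'.mem with h0 | ⟨y, hy, hyv⟩
      · exact absurd h0 hh'.ne
      · exact hyv.trans_le ((div_mem_iff hVh.ne).1 (hVh.div y hy))
    have hfmin : IsMin V (H' ^ i) f := isMin_iff.2 ⟨hCle hf, hG⟩
    have h5 : V.valuation (h' ^ i) ≤ V.valuation f :=
      (div_mem_iff hf0).1 (hfmin.div _ (Submodule.pow_mem_pow H' hh'.mem i))
    have h6 := ((hVh.pow hov (t - (i + 1))).mul (hh'.pow hov (i + 1))).div _ hx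
    have h7 : h ^ (t - (i + 1)) * h' ^ (i + 1) ≠ 0 :=
      mul_ne_zero (pow_ne_zero _ hh0) (pow_ne_zero _ hh'.ne)
    have h8 := (div_mem_iff h7).1 h6
    have h9 : V.valuation (μ f) = V.valuation h ^ (t - i) * V.valuation f := by
      rw [hμ, LinearMap.mulLeft_apply, map_mul, map_pow]
    rw [h9, map_mul, map_pow, map_pow] at h8
    rw [map_pow] at h5
    have e : t - i = (t - (i + 1)) + 1 := by omega
    have hvh : 0 < V.valuation h := zero_lt_iff.2 ((Valuation.ne_zero_iff _).2 hh0)
    have hvh' : 0 < V.valuation h' := zero_lt_iff.2 ((Valuation.ne_zero_iff _).2 hh'.ne)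
    have h10 : V.valuation h ^ (t - (i + 1)) * V.valuation h' ^ (i + 1) <
        V.valuation h ^ (t - i) * V.valuation f := by
      calc V.valuation h ^ (t - (i + 1)) * V.valuation h' ^ (i + 1)
          = V.valuation h ^ (t - (i + 1)) * V.valuation h' ^ i * V.valuation h' := by
            rw [pow_succ, mul_assoc]
        _ < V.valuation h ^ (t - (i + 1)) * V.valuation h' ^ i * V.valuation h :=
            mul_lt_mul_of_pos_left hlt (mul_pos (pow_pos hvh _) (pow_pos hvh' _))
        _ = V.valuation h ^ (t - i) * V.valuation h' ^ i := by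
            rw [e, pow_succ, mul_right_comm]
        _ ≤ V.valuation h ^ (t - i) * V.valuation f := by
            exact mul_le_mul_right h5 _
    exact absurd h8 (not_le.2 h10)
  have hsup : H ^ (t - (i + 1)) * H' ^ (i + 1) ⊔ C.map μ ≤ H ^ (t - i) * H' ^ i :=
    sup_le hsub2 hsub1
  have h4 := Submodule.finrank_mono hsup
  have hfm : FiniteDimensional k (C.map μ) := Submodule.finiteDimensional_of_le hsub1
  have h5 := Submodule.finrank_sup_add_finrank_inf_eq
    (H ^ (t - (i + 1)) * H' ^ (i + 1) : Submodule k K) (C.map μ)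
  rw [hdis.eq_bot, finrank_bot, add_zero, hμC] at h5
  omega

/-- LEMMA N, for `H ≠ ⊥`. -/
theorem lemN [Infinite k] {H H' : Submodule k K} (hH : H.FG) (hHb : H ≠ ⊥) (hle : H' ≤ H)
    (t : ℕ) :
    finrank k (H' ^ t : Submodule k K) + ∑ i ∈ Finset.range t,
      (finrank k (H' ^ i : Submodule k K) -
        finrank k (vanish H' i fun V => Ov k V ∧ ∀ h ∈ H', Gt V h H)) ≤
    finrank k (H ^ t : Submodule k K) := by
  have key : ∀ j ≤ t, finrank k (H ^ (t - j) * H' ^ j : Submodule k K) +
      ∑ i ∈ Finset.range j, (finrank k (H' ^ i : Submodule k K) -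
        finrank k (vanish H' i fun V => Ov k V ∧ ∀ h ∈ H', Gt V h H)) ≤
      finrank k (H ^ t : Submodule k K) := by
    intro j
    induction j with
    | zero =>
      intro _
      rw [Nat.sub_zero, pow_zero, mul_one, Finset.range_zero, Finset.sum_empty, add_zero]
    | succ j ih =>
      intro hj
      have h1 := ih (by omega)
      have h2 := lemN_layer hH hHb hle (show j < t by omega)
      rw [Finset.sum_range_succ]
      omega
  have h := key t le_rfl
  rwa [Nat.sub_self, pow_zero, one_mul] at h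

end Pool.Agent.TG15
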