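import Pool.Agent.Lib.TG15.Defs

/-!
# TANK G, section B: LEMMA S (semicontinuity)
-/

set_option autoImplicit false

namespace Pool.Agent.TG15

open Module

universe u

variable {k K : Type u} [Field k] [Field K] [Algebra k K]

/-- The map `A → K / E`, `a ↦ q a`. -/
noncomputable def TT (E A : Submodule k K) (q : K) : A →ₗ[k] K ⧸ E :=
  (E.mkQ.comp (LinearMap.mulLeft k q)).comp A.subtype

theorem TT_apply (E A : Submodule k K) (q : K) (a : A) : TT E A q a = E.mkQ (q * a) := rfl

theorem mem_smulK {q x : K} {A : Submodule k K} : x ∈ smulK q A ↔ ∃ a ∈ A, q * a = x := Iff.rfl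

theorem smulK_fg {q : K} {A : Submodule k K} (hA : A.FG) : (smulK q A).FG := hA.map _

theorem finrank_add_rank {E A : Submodule k K} (hA : A.FG) {q : K} (hq : q ≠ 0) :
    finrank k (E ⊓ smulK q A : Submodule k K) + finrank k (LinearMap.range (TT E A q)) =
      finrank k A := by
  have : FiniteDimensional k A := Module.Finite.iff_fg.2 hA
  rw [← LinearMap.finrank_range_add_finrank_ker (TT E A q), add_comm]
  congr 1
  let f : A →ₗ[k] K := (LinearMap.mulLeft k q).comp A.subtype
  have hf : Function.Injective f := by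
    intro a b hab
    exact Subtype.ext (mul_left_cancel₀ hq hab)
  have h1 : (LinearMap.ker (TT E A q)).map f = E ⊓ smulK q A := by
    ext x
    constructor
    · rintro ⟨a, ha, rfl⟩
      refine ⟨?_, a, a.2, rfl⟩
      have h2 : E.mkQ (q * a) = 0 := ha
      rwa [Submodule.mkQ_apply, Submodule.Quotient.mk_eq_zero] at h2
    · rintro ⟨hx, a, ha, rfl⟩
      refine ⟨⟨a, ha⟩, ?_, rfl⟩
      rw [SetLike.mem_coe, LinearMap.mem_ker, TT_apply, Submodule.mkQ_apply,
        Submodule.Quotient.mk_eq_zero]
      exact hx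
  rw [← h1]
  exact (LinearEquiv.finrank_eq (Submodule.equivMapOfInjective f hf _)).symm

theorem exists_functional {V : Type*} [AddCommGroup V] [Module k V] {r : ℕ} {v : Fin r → V}
    (hv : LinearIndependent k v) : ∃ f : V →ₗ[k] (Fin r → k), ∀ i j, f (v i) j = if i = j then 1
      else 0 := by
  have h1 : LinearMap.ker (Fintype.linearCombination k v) = ⊥ := by
    exact LinearMap.ker_eq_bot'.2 fun m hm => by
      funext i
      rw [Fintype.linearCombination_apply] at hm
      exact Fintype.linearIndependent_iff.1 hv m hm i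
  obtain ⟨f, hf⟩ := LinearMap.exists_leftInverse_of_injective _ h1
  refine ⟨f, fun i j => ?_⟩
  have h2 : f (v i) = Pi.single i 1 := by
    have h3 := LinearMap.congr_fun hf (Pi.single i (1 : k))
    rw [LinearMap.comp_apply, LinearMap.id_apply, Fintype.linearCombination_apply_single,
      one_smul] at h3
    exact h3
  rw [h2, Pi.single_apply]
  simp only [eq_comm]

theorem lemS2 : LemS2 k K := by
  classical
  intro E A hE hA ι J _ φ κ c₀ h0
  have : FiniteDimensional k A := Module.Finite.iff_fg.2 hA
  set Q : (ι → k) → K := fun c => ∑ j, algebraMap k K (MvPolynomial.eval c (φ j)) * κ j with hQ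
  have h0' : Q c₀ ≠ 0 := h0
  -- the factor for `Q c ≠ 0`
  obtain ⟨lam, hlam⟩ : ∃ lam : K →ₗ[k] k, lam (Q c₀) = 1 := by
    have hli : LinearIndependent k (fun _ : Fin 1 => Q c₀) := by
      rw [Fintype.linearIndependent_iff]
      intro g hg i
      rw [Fin.sum_univ_one] at hg
      rw [Subsingleton.elim i 0]
      exact (smul_eq_zero.1 hg).resolve_right h0'
    obtain ⟨f, hf⟩ := exists_functional hli
    exact ⟨(LinearMap.proj 0).comp f, by simpa using hf 0 0⟩
  let Φ₀ : MvPolynomial ι k := ∑ j, φ j * MvPolynomial.C (lam (κ j))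
  have hΦ₀ : ∀ c, MvPolynomial.eval c Φ₀ = lam (Q c) := by
    intro c
    simp only [Φ₀, hQ, map_sum, map_mul, MvPolynomial.eval_C, ← Algebra.smul_def, map_smul,
      smul_eq_mul]
  -- the minor
  set r := finrank k (LinearMap.range (TT E A (Q c₀))) with hr
  let b := Module.finBasis k (LinearMap.range (TT E A (Q c₀)))
  choose a ha using fun i => LinearMap.mem_range.1 (b i).2
  have hli : LinearIndependent k (fun i => TT E A (Q c₀) (a i)) := by
    have h1 : (fun i => TT E A (Q c₀) (a i)) =
        (LinearMap.range (TT E A (Q c₀))).subtype ∘ b := by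
      funext i
      exact ha i
    rw [h1]
    exact b.linearIndependent.map' _ (Submodule.ker_subtype _)
  obtain ⟨f, hf⟩ := exists_functional hli
  let Mp : Matrix (Fin r) (Fin r) (MvPolynomial ι k) := fun i l =>
    ∑ j, φ j * MvPolynomial.C (f (E.mkQ (κ j * (a i : K))) l)
  have hMp : ∀ c, (MvPolynomial.eval c).mapMatrix Mp = fun i l => f (TT E A (Q c) (a i)) l := by
    intro c
    funext i l
    simp only [RingHom.mapMatrix_apply, Matrix.map_apply, Mp, map_sum, map_mul,
      MvPolynomial.eval_C]
    have hQc : Q c = ∑ j, algebraMap k K (MvPolynomial.eval c (φ j)) * κ j := rfl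
    rw [TT_apply, hQc]
    simp only [Finset.sum_mul, map_sum, Finset.sum_apply]
    refine Finset.sum_congr rfl fun x _ => ?_
    rw [mul_assoc, ← Algebra.smul_def, map_smul, map_smul, Pi.smul_apply, smul_eq_mul]
  refine ⟨Φ₀ * Mp.det, ?_, ?_⟩
  · rw [map_mul, hΦ₀, hlam, one_mul, RingHom.map_det, hMp]
    have h1 : (fun i l => f (TT E A (Q c₀) (a i)) l) = (1 : Matrix (Fin r) (Fin r) k) := by
      funext i l
      rw [hf, Matrix.one_apply]
    rw [h1, Matrix.det_one]
    exact one_ne_zero
  · intro c hc
    rw [map_mul, hΦ₀, RingHom.map_det, hMp] at hc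
    have hc1 : Q c ≠ 0 := by
      intro h
      apply left_ne_zero_of_mul hc
      rw [h, map_zero]
    refine ⟨hc1, ?_⟩
    have hc2 := right_ne_zero_of_mul hc
    have hli2 : LinearIndependent k (fun i => TT E A (Q c) (a i)) := by
      have h2 : LinearIndependent k (fun i => f (TT E A (Q c) (a i))) := by
        have h3 : IsUnit (Matrix.det (fun i l => f (TT E A (Q c) (a i)) l)) :=
          isUnit_iff_ne_zero.2 hc2
        exact (Matrix.linearIndependent_rows_iff_isUnit (A := fun i l =>
          f (TT E A (Q c) (a i)) l)).2 ((Matrix.isUnit_iff_isUnit_det _).2 h3)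
      exact LinearIndependent.of_comp f h2
    have h4 : r ≤ finrank k (LinearMap.range (TT E A (Q c))) := by
      have h5 : LinearIndependent k (fun i =>
          (⟨TT E A (Q c) (a i), LinearMap.mem_range_self _ _⟩ :
            LinearMap.range (TT E A (Q c)))) := by
        apply LinearIndependent.of_comp (LinearMap.range (TT E A (Q c))).subtype
        exact hli2
      simpa using h5.fintype_card_le_finrank
    have h6 := finrank_add_rank (E := E) hA h0'
    have h7 := finrank_add_rank (E := E) hA hc1
    change finrank k (E ⊓ smulK (Q c) A : Submodule k K) ≤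
      finrank k (E ⊓ smulK (Q c₀) A : Submodule k K)
    omega

theorem lemS1 : LemS1 k K := by
  classical
  intro E A hE hA q₀ q₁ hq₁
  obtain ⟨Φ, hΦ0, hΦ⟩ := lemS2 E A hE hA Unit (Fin 2) ![MvPolynomial.X (), 1] ![q₀, q₁]
    (fun _ => (0 : k)) (by simpa using hq₁)
  -- the polynomial in one variable
  let P : Polynomial k := MvPolynomial.aeval (fun _ => Polynomial.X) Φ
  have hP : ∀ e : k, P.eval e = MvPolynomial.eval (fun _ => e) Φ := by
    intro e
    have h1 : (Polynomial.evalRingHom e).comp
        (MvPolynomial.aeval (R := k) (fun _ : Unit => (Polynomial.X : Polynomial k))).toRingHom =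
          MvPolynomial.eval (fun _ => e) := by
      apply MvPolynomial.ringHom_ext
      · intro r
        simp
      · intro i
        simp
    exact RingHom.congr_fun h1 Φ
  have hP0 : P ≠ 0 := by
    intro h
    apply hΦ0
    rw [← hP, h, Polynomial.eval_zero]
  have hfin : {s : k | P.eval s⁻¹ = 0}.Finite := by
    have h1 : {s : k | P.eval s⁻¹ = 0} ⊆ (fun x => x⁻¹) '' (P.roots.toFinset : Set k) := by
      intro s hs
      refine ⟨s⁻¹, ?_, inv_inv s⟩
      simp only [Finset.mem_coe, Multiset.mem_toFinset]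
      exact (Polynomial.mem_roots hP0).2 hs
    exact ((Finset.finite_toSet _).image _).subset h1
  refine (hfin.union (Set.finite_singleton (0 : k))).subset ?_
  intro s hs
  by_contra hcon
  rw [Set.mem_union, not_or] at hcon
  obtain ⟨h1, h2⟩ := hcon
  have hs0 : s ≠ 0 := h2
  have h3 : MvPolynomial.eval (fun _ => s⁻¹) Φ ≠ 0 := by
    rw [← hP]
    exact h1
  obtain ⟨h4, h5⟩ := hΦ _ h3
  have h6 : (∑ j : Fin 2, algebraMap k K (MvPolynomial.eval (fun _ => s⁻¹)
      ((![MvPolynomial.X (), 1] : Fin 2 → MvPolynomial Unit k) j)) * (![q₀, q₁] : Fin 2 → K) j) =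
      algebraMap k K s⁻¹ * (q₀ + algebraMap k K s * q₁) := by
    rw [Fin.sum_univ_two]
    simp only [Matrix.cons_val_zero, Matrix.cons_val_one, MvPolynomial.eval_X, map_one, one_mul]
    rw [mul_add, ← mul_assoc, ← map_mul, inv_mul_cancel₀ hs0, map_one, one_mul]
  have h7 : (∑ j : Fin 2, algebraMap k K (MvPolynomial.eval (fun _ => (0 : k))
      ((![MvPolynomial.X (), 1] : Fin 2 → MvPolynomial Unit k) j)) * (![q₀, q₁] : Fin 2 → K) j) =
      q₁ := by
    rw [Fin.sum_univ_two]
    simp
  rw [h6] at h4 h5
  rw [h7] at h5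
  have h8 : smulK (algebraMap k K s⁻¹ * (q₀ + algebraMap k K s * q₁)) A =
      smulK (q₀ + algebraMap k K s * q₁) A := by
    ext x
    simp only [mem_smulK]
    constructor
    · rintro ⟨a, ha, rfl⟩
      refine ⟨s⁻¹ • a, A.smul_mem _ ha, ?_⟩
      rw [Algebra.smul_def]
      ring
    · rintro ⟨a, ha, rfl⟩
      refine ⟨s • a, A.smul_mem _ ha, ?_⟩
      rw [Algebra.smul_def, map_inv₀]
      have : algebraMap k K s ≠ 0 := (map_ne_zero_iff _ (algebraMap k K).injective).2 hs0
      field_simp
  rw [h8] at h5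
  rcases hs with hs | hs
  · apply h4
    rw [hs, mul_zero]
  · exact absurd h5 (not_le.2 hs)

end Pool.Agent.TG15
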