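import Pool.Agent.Lib.TG.Basic
import Pool.Agent.Lib.TG15.LemS
import Pool.Agent.Lib.TG15.LemDF
import Pool.Agent.Lib.TG15.LemN

/-!
# TANK G, section B: the step `W → W_x`
-/

set_option autoImplicit false

namespace Pool.Agent.TG15

open Pool.Agent.TG (Ov ZDim IsMin ch IsModel)
open Module

universe u

variable {k K : Type u} [Field k] [Field K] [Algebra k K]

/-! ### Linear algebra -/

theorem fd {A : Submodule k K} (hA : A.FG) : FiniteDimensional k A := Module.Finite.iff_fg.2 hA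

theorem finrank_mono' {A B : Submodule k K} (hB : B.FG) (h : A ≤ B) :
    finrank k A ≤ finrank k B := by
  have := fd hB
  exact Submodule.finrank_mono h

theorem fg_of_le {A B : Submodule k K} (hB : B.FG) (h : A ≤ B) : A.FG := by
  have := fd hB
  have h1 : FiniteDimensional k A := Submodule.finiteDimensional_of_le h
  exact Module.Finite.iff_fg.1 h1

theorem finrank_sup_inf {A B : Submodule k K} (hA : A.FG) (hB : B.FG) :
    finrank k (A ⊔ B : Submodule k K) + finrank k (A ⊓ B : Submodule k K) =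
      finrank k A + finrank k B := by
  have := fd hA
  have := fd hB
  exact Submodule.finrank_sup_add_finrank_inf_eq A B

theorem fg_sup {A B : Submodule k K} (hA : A.FG) (hB : B.FG) : (A ⊔ B : Submodule k K).FG :=
  Submodule.FG.sup hA hB

/-! ### Valuations -/

theorem gt_iff {V : ValuationSubring K} {H : Submodule k K} {f₀ : K}
    (hf : IsMin V H f₀) {x : K} : Gt V x H ↔ V.valuation x < V.valuation f₀ := by
  constructor
  · rintro (rfl | ⟨y, hy, hxy⟩)
    · rw [map_zero]
      exact zero_lt_iff.2 ((Valuation.ne_zero_iff _).2 hf.ne)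
    · refine hxy.trans_le ?_
      have h1 := (V.valuation_le_one_iff _).2 (hf.div y hy)
      rw [map_div₀] at h1
      exact (div_le_one₀ (zero_lt_iff.2 ((Valuation.ne_zero_iff _).2 hf.ne))).1 h1
  · intro h
    exact Or.inr ⟨f₀, hf.mem, h⟩

theorem val_le {V : ValuationSubring K} {H : Submodule k K} {f₀ : K}
    (hf : IsMin V H f₀) {y : K} (hy : y ∈ H) : V.valuation y ≤ V.valuation f₀ := by
  have h1 := (V.valuation_le_one_iff _).2 (hf.div y hy)
  rw [map_div₀] at h1
  exact (div_le_one₀ (zero_lt_iff.2 ((Valuation.ne_zero_iff _).2 hf.ne))).1 h1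

theorem hx_mul_le (V : ValuationSubring K) (W L : Submodule k K) :
    hx V W * L ≤ hx V (W * L) := by
  rw [Submodule.mul_le]
  rintro w ⟨hw, hw'⟩ l hl
  refine ⟨Submodule.mul_mem_mul hw hl, ?_⟩
  rcases eq_or_ne l 0 with rfl | hl0
  · exact Or.inl (mul_zero _)
  rcases hw' with rfl | ⟨y, hy, hyw⟩
  · exact Or.inl (zero_mul _)
  refine Or.inr ⟨y * l, Submodule.mul_mem_mul hy hl, ?_⟩
  rw [map_mul, map_mul]
  exact mul_lt_mul_of_pos_right hyw (zero_lt_iff.2 ((Valuation.ne_zero_iff _).2 hl0))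

/-! ### The boundary -/

theorem exists_isMin_of_not {V : ValuationSubring K} {H H' : Submodule k K} (hHH : H' ≤ H)
    (hP : ¬ ∀ h ∈ H', Gt V h H) : ∃ h, IsMin V H h ∧ IsMin V H' h := by
  push Not at hP
  obtain ⟨h, hh, hG⟩ := hP
  have h0 : h ≠ 0 := fun h0 => hG (Or.inl h0)
  have hm : IsMin V H h := by
    refine ⟨hHH hh, h0, fun g hg => ?_⟩
    rw [← V.valuation_le_one_iff, map_div₀]
    refine div_le_one_of_le₀ ?_ zero_le
    by_contra hcon
    exact hG (Or.inr ⟨g, hg, not_le.1 hcon⟩)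
  exact ⟨h, hm, hh, h0, fun g hg => hm.div g (hHH hg)⟩

theorem ti_step {L : Submodule k K} (hL : L.FG) (h1L : 1 ∈ L) {N : ℕ} {τ : K}
    {W W' : Submodule k K} (hW : W.FG) (hWW : W' ≤ W) (i : ℕ) :
    (vanish (W' * L) i fun V => Ov k V ∧ ∀ h ∈ W' * L, Gt V h (W * L)) ⊓
      ((W' * L) ^ i ⊓ ti L N τ W i) ≤ ti L N τ W' i := by
  have hHH : W' * L ≤ W * L := mul_le_mul_left hWW _
  rintro f ⟨⟨hf, hf1⟩, -, -, hf2⟩
  refine ⟨hf, ?_⟩
  rintro V ⟨hV, hV'⟩
  by_cases hP : ∀ h ∈ W' * L, Gt V h (W * L)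
  · exact hf1 V ⟨hV, hP⟩
  obtain ⟨h, hm, hm'⟩ := exists_isMin_of_not hHH hP
  have hL0 : L ≠ ⊥ := by
    rintro rfl
    exact one_ne_zero ((Submodule.mem_bot k).1 h1L)
  obtain ⟨l, hl⟩ := TG.exists_isMin hV ⟨hL, hL0⟩
  have hW'0 : W' ≠ ⊥ := by
    rintro rfl
    apply hm'.ne
    have := hm'.mem
    rwa [Submodule.bot_mul, Submodule.mem_bot] at this
  obtain ⟨w', hw'⟩ := TG.exists_isMin hV ⟨fg_of_le hW hWW, hW'0⟩
  have hV2 : Tp L N τ W V := by
    refine ⟨hV, fun w hw => ?_⟩
    have h2 := hV' w' hw'.mem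
    rw [gt_iff (hl.pow hV N)] at h2 ⊢
    refine lt_of_le_of_lt ?_ h2
    rw [map_mul, map_mul]
    refine mul_le_mul_right ?_ _
    have h3 : V.valuation (w * l) ≤ V.valuation (w' * l) :=
      (val_le hm (Submodule.mul_mem_mul hw hl.mem)).trans (val_le (hw'.mul hl) hm'.mem)
    rw [map_mul, map_mul] at h3
    exact (mul_le_mul_iff_left₀ (zero_lt_iff.2 ((Valuation.ne_zero_iff _).2 hl.ne))).1 h3
  have h4 := hf2 V hV2
  rw [gt_iff (hm.pow hV i)] at h4
  exact (gt_iff (hm'.pow hV i)).2 h4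

/-- The quotients `ch / 𝔪 ^ i` are finite dimensional. -/
def FinQ (k K : Type u) [Field k] [Field K] [Algebra k K] : Prop :=
  ∀ (V : ValuationSubring K), ZDim k V → ∀ (H : Submodule k K), H.FG → ∀ f₀ : K, IsMin V H f₀ →
    ∀ i : ℕ, Module.Finite k (ch H f₀ ⧸ mx H f₀ (hx V H) ^ i)

theorem finrank_quot_le (hQ : FinQ k K) {V : ValuationSubring K} (hV : ZDim k V)
    {H : Submodule k K} (hH : H.FG) {f₀ : K} (hf : IsMin V H f₀) (i : ℕ)
    {I J : Ideal (ch H f₀)} (hIJ : I ≤ J) :
    finrank k (ch H f₀ ⧸ (J ⊔ mx H f₀ (hx V H) ^ i)) ≤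
      finrank k (ch H f₀ ⧸ (I ⊔ mx H f₀ (hx V H) ^ i)) := by
  have h0 := hQ V hV H hH f₀ hf i
  have hle : mx H f₀ (hx V H) ^ i ≤ I ⊔ mx H f₀ (hx V H) ^ i := le_sup_right
  have h1 : Module.Finite k (ch H f₀ ⧸ (I ⊔ mx H f₀ (hx V H) ^ i)) :=
    Module.Finite.of_surjective (Ideal.Quotient.factorₐ k hle).toLinearMap
      (Ideal.Quotient.factor_surjective hle)
  have hle2 := sup_le_sup_right hIJ (mx H f₀ (hx V H) ^ i)
  exact LinearMap.finrank_le_finrank_of_surjective
    (f := (Ideal.Quotient.factorₐ k hle2).toLinearMap) (Ideal.Quotient.factor_surjective hle2)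

theorem thi_step (hD : LemD k K) (hQ : FinQ k K) {L : Submodule k K} (hL : L.FG) (h1L : 1 ∈ L)
    {N : ℕ} {τ : K} {W : Submodule k K} (hW : W.FG) {V : ValuationSubring K} (hV : ZDim k V)
    {f₀ : K} (hf : IsMin V (W * L) f₀) (i : ℕ) :
    thi L N τ (hx V W) i +
        finrank k (ch (W * L) f₀ ⧸ (tx L W N τ f₀ ⊔ mx (W * L) f₀ (hx V (W * L)) ^ i)) ≤
      (finrank k ((hx V W * L) ^ i : Submodule k K) -
        finrank k (vanish (hx V W * L) i fun V' => Ov k V' ∧
          ∀ h ∈ hx V W * L, Gt V' h (W * L))) + thi L N τ W i := by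
  have hH : (W * L).FG := hW.mul hL
  have hWW := (hx_le : hx V W ≤ W)
  have hHH : hx V W * L ≤ W * L := mul_le_mul_left hWW _
  have hH' : (hx V W * L).FG := fg_of_le hH hHH
  have hHi : ((W * L) ^ i).FG := hH.pow i
  have hH'i : ((hx V W * L) ^ i).FG := hH'.pow i
  have e1 := finrank_quot_le hQ hV hH hf i
    (le_iSup (fun i => ix (W * L) f₀ i (ti L N τ W i)) i)
  have e2 := hD V hV (W * L) hH f₀ hf (hx V W * L) (hx_mul_le V W L) i (ti L N τ W i)
    (vanish_le _ _ _)
  have htiW : (ti L N τ W i).FG := fg_of_le hHi (vanish_le _ _ _)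
  have e3 := finrank_sup_inf hH'i htiW
  rw [sup_comm] at e3
  set B1 := vanish (hx V W * L) i fun V' => Ov k V' ∧ ∀ h ∈ hx V W * L, Gt V' h (W * L) with hB1
  have hB1le : B1 ≤ (hx V W * L) ^ i := vanish_le _ _ _
  set B2 := (hx V W * L) ^ i ⊓ ti L N τ W i with hB2
  have hB2le : B2 ≤ (hx V W * L) ^ i := inf_le_left
  have e4 := finrank_sup_inf (fg_of_le hH'i hB1le) (fg_of_le hH'i hB2le)
  have e5 := finrank_mono' hH'i (sup_le hB1le hB2le)
  have hti' : ti L N τ (hx V W) i ≤ (hx V W * L) ^ i := vanish_le _ _ _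
  have e6 := finrank_mono' (fg_of_le hH'i hti') (ti_step hL h1L (N := N) (τ := τ) hW hWW i)
  have e7 := finrank_mono' hH'i hB1le
  have hti : ti L N τ W i ≤ (W * L) ^ i := vanish_le _ _ _
  have e8 := finrank_mono' hHi hti
  have e9 := finrank_mono' hH'i hti'
  have e10 := finrank_mono' hH'i hB2le
  rw [← hB1, ← hB2] at e6
  unfold thi tx
  omega

/-! ### `q (tup f₀ e c)` -/

/-- The vectors `f₀, e j`. -/
def vec {h : ℕ} (f₀ : K) (e : Fin h → K) : Option (Fin h) → K
  | none => f₀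
  | some j => e j

/-- The coefficients of the tuple. -/
noncomputable def cf {n h : ℕ} (l : Fin (n + 1)) : Option (Fin h) →
    MvPolynomial (Fin (n + 1) × Fin h) k
  | none => if l = 0 then 1 else 0
  | some j => MvPolynomial.X (l, j)

theorem tup_eq {n h : ℕ} (f₀ : K) (e : Fin h → K) (c : Fin (n + 1) × Fin h → k)
    (l : Fin (n + 1)) :
    tup f₀ e c l = ∑ o, MvPolynomial.eval c (cf l o) • vec f₀ e o := by
  rw [Fintype.sum_option, tup]
  simp only [cf, vec, MvPolynomial.eval_X]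
  congr 1
  split_ifs
  · rw [map_one, one_smul]
  · rw [map_zero, zero_smul]

theorem q_tup {n h : ℕ} (q : K [⋀^Fin (n + 1)]→ₗ[k] K) (f₀ : K) (e : Fin h → K)
    (c : Fin (n + 1) × Fin h → k) :
    q (tup f₀ e c) = ∑ r : Fin (n + 1) → Option (Fin h),
      algebraMap k K (MvPolynomial.eval c (∏ l, cf l (r l))) * q (fun l => vec f₀ e (r l)) := by
  have h1 : tup f₀ e c = fun l => ∑ o, MvPolynomial.eval c (cf l o) • vec f₀ e o := by
    funext l
    exact tup_eq f₀ e c l
  rw [h1, ← AlternatingMap.coe_multilinearMap, MultilinearMap.map_sum]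
  refine Finset.sum_congr rfl fun r _ => ?_
  rw [MultilinearMap.map_smul_univ, Algebra.smul_def, map_prod, map_prod, map_prod]

theorem exists_tup {n h : ℕ} (f₀ : K) (e : Fin h → K) (x : Fin (n + 1) → K)
    (hx : ∀ l, x l ∈ Submodule.span k (Set.range e)) :
    ∃ c : Fin (n + 1) × Fin h → k, tup f₀ e c = fun l => (if l = 0 then f₀ else 0) + x l := by
  choose c hc using fun l => (Submodule.mem_span_range_iff_exists_fun k).1 (hx l)
  refine ⟨fun p => c p.1 p.2, ?_⟩
  funext l
  rw [tup, hc]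

theorem if_zero_add {n : ℕ} (f₀ : K) (x : Fin (n + 1) → K) :
    (fun l => (if l = 0 then f₀ else 0) + x l) = Function.update x 0 (f₀ + x 0) := by
  funext l
  by_cases hl : l = 0
  · subst hl
    rw [if_pos rfl, Function.update_self]
  · rw [if_neg hl, zero_add, Function.update_of_ne hl]

theorem exists_q_ne {n h : ℕ} (q : K [⋀^Fin (n + 1)]→ₗ[k] K) (f₀ : K) (e : Fin h → K)
    (g : Fin (n + 1) → K) (hg : ∀ l, g l ∈ Submodule.span k (Set.range (vec f₀ e)))
    (hq : q g ≠ 0) : ∃ c : Fin (n + 1) × Fin h → k, q (tup f₀ e c) ≠ 0 := by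
  classical
  choose a ha using fun l => (Submodule.mem_span_range_iff_exists_fun k).1 (hg l)
  -- a tuple of basis vectors
  obtain ⟨r, hr⟩ : ∃ r : Fin (n + 1) → Option (Fin h), q (fun l => vec f₀ e (r l)) ≠ 0 := by
    by_contra hcon
    push Not at hcon
    apply hq
    have h1 : g = fun l => ∑ o, a l o • vec f₀ e o := by
      funext l
      exact (ha l).symm
    rw [h1, ← AlternatingMap.coe_multilinearMap, MultilinearMap.map_sum]
    refine Finset.sum_eq_zero fun r _ => ?_
    rw [MultilinearMap.map_smul_univ, AlternatingMap.coe_multilinearMap, hcon, smul_zero]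
  have hinj : Function.Injective r := by
    intro i j hij
    by_contra hne
    exact hr (q.map_eq_zero_of_eq _ (by rw [hij]) hne)
  -- the tuple `x` in `H_x`
  have key : ∀ x : Fin (n + 1) → K, (∀ l, x l ∈ Submodule.span k (Set.range e)) →
      q (Function.update x 0 f₀) ≠ 0 ∨ q x ≠ 0 →
      ∃ c : Fin (n + 1) × Fin h → k, q (tup f₀ e c) ≠ 0 := by
    intro x hx hor
    by_cases h0 : q (Function.update x 0 f₀) = 0
    · obtain ⟨c, hc⟩ := exists_tup f₀ e x hx
      refine ⟨c, ?_⟩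
      rw [hc, if_zero_add, AlternatingMap.map_update_add, h0, zero_add,
        Function.update_eq_self]
      exact hor.resolve_left (not_not.2 h0)
    · obtain ⟨c, hc⟩ := exists_tup f₀ e (Function.update x 0 0) (by
        intro l
        by_cases hl : l = 0
        · subst hl
          rw [Function.update_self]
          exact zero_mem _
        · rw [Function.update_of_ne hl]
          exact hx l)
      refine ⟨c, ?_⟩
      rw [hc, if_zero_add, Function.update_self, add_zero, Function.update_idem]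
      exact h0
  by_cases hnone : ∃ l, r l = none
  · obtain ⟨l₀, hl₀⟩ := hnone
    let σ := Equiv.swap 0 l₀
    have hx : ∀ l, (Function.update (fun l => vec f₀ e (r (σ l))) 0 0) l ∈
        Submodule.span k (Set.range e) := by
      intro l
      by_cases hl : l = 0
      · subst hl
        rw [Function.update_self]
        exact zero_mem _
      · rw [Function.update_of_ne hl]
        have h2 : r (σ l) ≠ none := by
          intro h3
          have h4 : σ l = l₀ := hinj (h3.trans hl₀.symm)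
          apply hl
          have h5 : l = σ l₀ := by
            rw [← h4]
            exact (Equiv.swap_apply_self 0 l₀ l).symm
          rw [h5]
          exact Equiv.swap_apply_right 0 l₀
        obtain ⟨j, hj⟩ := Option.ne_none_iff_exists'.1 h2
        rw [hj]
        exact Submodule.subset_span ⟨j, rfl⟩
    refine key _ hx (Or.inl ?_)
    rw [Function.update_idem]
    have h6 : Function.update (fun l => vec f₀ e (r (σ l))) 0 f₀ =
        fun l => vec f₀ e (r (σ l)) := by
      rw [Function.update_eq_self_iff]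
      have h10 : σ 0 = l₀ := Equiv.swap_apply_left 0 l₀
      change f₀ = vec f₀ e (r (σ 0))
      rw [h10, hl₀]
      rfl
    rw [h6]
    have h7 := q.map_perm (fun l => vec f₀ e (r l)) σ
    intro h8
    have h9 : q ((fun l => vec f₀ e (r l)) ∘ σ) = 0 := h8
    rw [h9] at h7
    exact hr ((smul_eq_zero_iff_eq _).1 h7.symm)
  · push Not at hnone
    refine key (fun l => vec f₀ e (r l)) ?_ (Or.inr hr)
    intro l
    obtain ⟨j, hj⟩ := Option.ne_none_iff_exists'.1 (hnone l)
    rw [hj]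
    exact Submodule.subset_span ⟨j, rfl⟩

/-! ### The numbers `r_i` -/

theorem ri_bdd {n : ℕ} (q : (Fin (n + 1) → K) → K) (H A : Submodule k K) (i : ℕ) :
    BddAbove {d | ∃ g : Fin (n + 1) → K, (∀ j, g j ∈ H) ∧ q g ≠ 0 ∧
      d = finrank k (H ^ i : Submodule k K) - finrank k (bi H A i (q g))} := by
  refine ⟨finrank k (H ^ i : Submodule k K), ?_⟩
  rintro d ⟨g, -, -, rfl⟩
  exact Nat.sub_le _ _

theorem le_ri {n : ℕ} (q : (Fin (n + 1) → K) → K) (H A : Submodule k K) (i : ℕ)
    {g : Fin (n + 1) → K} (hg : ∀ j, g j ∈ H) (hq : q g ≠ 0) :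
    finrank k (H ^ i : Submodule k K) - finrank k (bi H A i (q g)) ≤ ri q H A i :=
  le_csSup (ri_bdd q H A i) ⟨g, hg, hq, rfl⟩

theorem ri_cases {n : ℕ} (q : (Fin (n + 1) → K) → K) (H A : Submodule k K) (i : ℕ) :
    ri q H A i = 0 ∨ ∃ g : Fin (n + 1) → K, (∀ j, g j ∈ H) ∧ q g ≠ 0 ∧
      ri q H A i = finrank k (H ^ i : Submodule k K) - finrank k (bi H A i (q g)) := by
  rcases Set.eq_empty_or_nonempty {d | ∃ g : Fin (n + 1) → K, (∀ j, g j ∈ H) ∧ q g ≠ 0 ∧
      d = finrank k (H ^ i : Submodule k K) - finrank k (bi H A i (q g))} with h | h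
  · left
    rw [ri, h, Nat.sSup_def ⟨0, fun a ha => absurd ha (Set.notMem_empty a)⟩]
    simp
  · right
    exact Nat.sSup_mem h (ri_bdd q H A i)

theorem ri_step (hD : LemD k K) (hQ : FinQ k K) [Infinite k] {n : ℕ}
    (q : K [⋀^Fin (n + 1)]→ₗ[k] K) {L : Submodule k K} (hL : L.FG)
    (hne : ∀ w : K, w ≠ 0 → ∃ g : Fin (n + 1) → K, (∀ j, g j ∈ (k ∙ w) * L) ∧ q g ≠ 0)
    (M : ℕ) {W : Submodule k K} (hW : W.FG) (hW0 : W ≠ ⊥) {V : ValuationSubring K}
    (hV : ZDim k V) {f₀ : K} (hf : IsMin V (W * L) f₀) {h : ℕ} (e : Fin h → K)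
    (he : Submodule.span k (Set.range e) = hx V (W * L)) (i : ℕ) :
    ∃ Φ : MvPolynomial (Fin (n + 1) × Fin h) k, Φ ≠ 0 ∧ ∀ c, MvPolynomial.eval c Φ ≠ 0 →
      q (tup f₀ e c) ≠ 0 ∧
      ri q (hx V W * L) (L ^ (M * i)) i +
        finrank k (ch (W * L) f₀ ⧸
          (bx L (W * L) M f₀ (q (tup f₀ e c)) ⊔ mx (W * L) f₀ (hx V (W * L)) ^ i)) ≤
        ri q (W * L) (L ^ (M * i)) i := by
  classical
  have hH : (W * L).FG := hW.mul hL
  have hHH : hx V W * L ≤ hx V (W * L) := hx_mul_le V W L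
  have hXle := (hx_le : hx V (W * L) ≤ W * L)
  have hX : (hx V (W * L)).FG := fg_of_le hH hXle
  have hHi : ((W * L) ^ i).FG := hH.pow i
  have hXi : ((hx V (W * L)) ^ i).FG := hX.pow i
  have hA : (L ^ (M * i)).FG := hL.pow _
  set H := W * L with hHdef
  set A := L ^ (M * i) with hAdef
  set X := hx V H with hXdef
  have hH'i : (hx V W * L) ^ i ≤ X ^ i := pow_le_pow_left' hHH i
  have hXiH : X ^ i ≤ H ^ i := pow_le_pow_left' hXle i
  -- the value `c₀`
  obtain ⟨c₀, hc₀, hr₀⟩ : ∃ c₀ : Fin (n + 1) × Fin h → k, q (tup f₀ e c₀) ≠ 0 ∧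
      ri q (hx V W * L) A i ≤ finrank k (X ^ i : Submodule k K) -
        finrank k (X ^ i ⊓ smulK (q (tup f₀ e c₀)) A : Submodule k K) := by
    rcases ri_cases q (hx V W * L) A i with hr | ⟨g, hg, hqg, hr⟩
    · obtain ⟨w, hw, hw0⟩ := Submodule.exists_mem_ne_zero_of_ne_bot hW0
      obtain ⟨g, hg, hqg⟩ := hne w hw0
      have hwH : (k ∙ w) * L ≤ H :=
        mul_le_mul_left ((Submodule.span_singleton_le_iff_mem _ _).2 hw) _
      obtain ⟨c, hc⟩ := exists_q_ne q f₀ e g (fun l => by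
        have hgl := hwH (hg l)
        -- `H = k f₀ + H_x`
        obtain ⟨a, ha⟩ := hV.res _ (hf.div _ hgl)
        have h1 : g l - a • f₀ ∈ X := by
          refine ⟨sub_mem hgl (Submodule.smul_mem _ _ hf.mem), ?_⟩
          rw [gt_iff hf]
          have h2 : g l - a • f₀ = (g l / f₀ - algebraMap k K a) * f₀ := by
            rw [sub_mul, div_mul_cancel₀ _ hf.ne, Algebra.smul_def]
          rw [h2, map_mul]
          calc _ < 1 * V.valuation f₀ := mul_lt_mul_of_pos_right ha
                (zero_lt_iff.2 ((Valuation.ne_zero_iff _).2 hf.ne))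
            _ = _ := one_mul _
        rw [← he] at h1
        have h3 : Submodule.span k (Set.range e) ≤ Submodule.span k (Set.range (vec f₀ e)) :=
          Submodule.span_mono (by
            rintro _ ⟨j, rfl⟩
            exact ⟨some j, rfl⟩)
        have h4 : f₀ ∈ Submodule.span k (Set.range (vec f₀ e)) :=
          Submodule.subset_span ⟨none, rfl⟩
        have h5 := add_mem (h3 h1) (Submodule.smul_mem _ a h4)
        rwa [sub_add_cancel] at h5) hqg
      exact ⟨c, hc, hr ▸ Nat.zero_le _⟩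
    · have hgX : ∀ l, g l ∈ X := fun l => hHH (hg l)
      have hfin := lemS1 (X ^ i) A hXi hA (q (Function.update g 0 f₀)) (q g) hqg
      obtain ⟨s, hs⟩ := hfin.exists_notMem
      rw [Set.mem_ofPred_eq, not_or, not_lt] at hs
      obtain ⟨c, hc⟩ := exists_tup f₀ e (Function.update g 0 (s • g 0)) (by
        intro l
        rw [he]
        by_cases hl : l = 0
        · subst hl
          rw [Function.update_self]
          exact Submodule.smul_mem _ _ (hgX 0)
        · rw [Function.update_of_ne hl]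
          exact hgX l)
      have hqc : q (tup f₀ e c) = q (Function.update g 0 f₀) + algebraMap k K s * q g := by
        rw [hc, if_zero_add, Function.update_self, Function.update_idem,
          AlternatingMap.map_update_add, AlternatingMap.map_update_smul, Function.update_eq_self,
          Algebra.smul_def]
      refine ⟨c, ?_, ?_⟩
      · rw [hqc]
        exact hs.1
      · rw [hqc]
        have hsA : (smulK (q g) A).FG := smulK_fg hA
        have e1 := finrank_sup_inf hXi hsA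
        have e2 := finrank_sup_inf (fg_of_le hXi hH'i) hsA
        have e3 := finrank_mono' (fg_sup hXi hsA) (sup_le_sup_right hH'i (smulK (q g) A))
        have e4 := hs.2
        unfold bi at hr
        omega
  -- the polynomial
  obtain ⟨Φ, hΦ0, hΦ⟩ := lemS2 (X ^ i) A hXi hA (Fin (n + 1) × Fin h)
    (Fin (n + 1) → Option (Fin h)) (fun r => ∏ l, cf l (r l))
    (fun r => q (fun l => vec f₀ e (r l))) c₀ (by
      rw [← q_tup]
      exact hc₀)
  refine ⟨Φ, fun h0 => hΦ0 (by rw [h0, map_zero]), fun c hc => ?_⟩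
  obtain ⟨hc1, hc2⟩ := hΦ c hc
  rw [← q_tup] at hc1
  rw [← q_tup, ← q_tup] at hc2
  refine ⟨hc1, ?_⟩
  have hgH : ∀ l, tup f₀ e c l ∈ H := by
    intro l
    rw [tup]
    refine add_mem ?_ (sum_mem fun j _ => Submodule.smul_mem _ _ ?_)
    · split_ifs
      · exact hf.mem
      · exact zero_mem _
    · exact hXle (he ▸ Submodule.subset_span ⟨j, rfl⟩)
  have hbile : bi H A i (q (tup f₀ e c)) ≤ H ^ i := inf_le_left
  have d1 := hD V hV H hH f₀ hf X le_rfl i (bi H A i (q (tup f₀ e c))) hbile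
  have d2 := finrank_sup_inf (fg_of_le hHi hbile) hXi
  have d3 : bi H A i (q (tup f₀ e c)) ⊓ X ^ i = X ^ i ⊓ smulK (q (tup f₀ e c)) A := by
    unfold bi
    rw [inf_comm, ← inf_assoc, inf_eq_left.2 hXiH]
  rw [d3] at d2
  have d4 := le_ri (q : (Fin (n + 1) → K) → K) H A i hgH hc1
  have d5 := finrank_quot_le hQ hV hH hf i
    (le_iSup (fun i => ix H f₀ i (bi H (L ^ (M * i)) i (q (tup f₀ e c)))) i)
  have d6 := finrank_mono' hHi hbile
  have d7 := finrank_mono' hXi (inf_le_left :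
    X ^ i ⊓ smulK (q (tup f₀ e c)) A ≤ X ^ i)
  rw [← hXdef, ← hAdef] at d5
  rw [← hXdef] at d1
  unfold bx
  omega

/-! ### The step -/

theorem ix_bot (H : Submodule k K) (f₀ : K) (i : ℕ) : ix H f₀ i ⊥ = ⊥ := by
  rw [ix, Ideal.span_eq_bot]
  rintro a ⟨f, hf, ha⟩
  rw [(Submodule.mem_bot k).1 hf, zero_div] at ha
  exact Subtype.ext ha

/-- THE STEP, from Lemma D, Lemma N and Lemma S. -/
theorem step (hD : LemD k K) (hN : LemN k K) (hQ : FinQ k K) (n : ℕ) : StepStmt k K n := by
  classical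
  intro hinf q L hL h1L hne M N τ hτ W hW hW0 V hV f₀ hf h e he t
  choose Φ hΦ0 hΦ using fun i => ri_step hD hQ q hL hne M hW hW0 hV hf e he i
  refine ⟨∏ i ∈ Finset.range (t + 1), Φ i, Finset.prod_ne_zero_iff.2 fun i _ => hΦ0 i,
    fun c hc => ?_⟩
  rw [map_prod, Finset.prod_ne_zero_iff] at hc
  refine ⟨(hΦ 0 c (hc 0 (Finset.mem_range.2 (Nat.succ_pos t)))).1, ?_⟩
  have hr : ∀ i ∈ Finset.range t, _ := fun i hi =>
    (hΦ i c (hc i (Finset.mem_range.2 ((Finset.mem_range.1 hi).trans (Nat.lt_succ_self t))))).2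
  have hH : (W * L).FG := hW.mul hL
  have hH0 : W * L ≠ ⊥ := by
    intro h0
    apply hf.ne
    have := hf.mem
    rwa [h0, Submodule.mem_bot] at this
  have hth := fun i => thi_step hD hQ hL h1L (N := N) (τ := τ) hW hV hf i
  have hHH : hx V W * L ≤ W * L := mul_le_mul_left ((hx_le : hx V W ≤ W)) _
  have hNN := hN hinf (W * L) (hx V W * L) hH hH0 hHH t
  have hvol := hD V hV (W * L) hH f₀ hf (hx V W * L) (hx_mul_le V W L) t ⊥ bot_le
  rw [ix_bot, bot_sup_eq, bot_sup_eq] at hvol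
  have h1 := Finset.sum_le_sum hr
  have h2 := Finset.sum_le_sum fun i (_ : i ∈ Finset.range t) => hth i
  rw [Finset.sum_add_distrib] at h1
  rw [Finset.sum_add_distrib, Finset.sum_add_distrib] at h2
  unfold Ft loc
  rw [Finset.sum_add_distrib, Finset.sum_add_distrib, Finset.sum_add_distrib]
  omega

theorem finQ (k K : Type u) [Field k] [Field K] [Algebra k K] : FinQ k K :=
  fun _ hV _ hH _ hf i => finite_quot hV hH hf i _ le_rfl

theorem stepStmt (k K : Type u) [Field k] [Field K] [Algebra k K] (n : ℕ) : StepStmt k K n := by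
  refine step (lemD k K) ?_ (finQ k K) n
  intro hinf H H' hH hH0 hle t
  exact lemN hH hH0 hle t

end Pool.Agent.TG15
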